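import Mathlib

set_option autoImplicit false

/-! Averaging with a drift and an additional nonnegative function. -/

open Finset

namespace Pool.Agent.LibT57

variable {ι : Type*}

/-- averaging with a drift: `X ω i` has mean `x i + ρ sgn (c i)`, `F ≥ 0` has mean at most `B`; some outcome outside
`Bad` has `F ω - ∑ c_i (e_i - x_i) ≤ 2 B` for all roundings `e` of `X ω` -/
theorem avg2 {Ω : Type*} [Fintype Ω] [DecidableEq Ω] [Nonempty Ω] (Bad : Finset Ω)
    (X : Ω → ι → ℝ) (J : Finset ι)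
    (c x : ι → ℝ) (ρ η : ℝ) (hρ : 0 < ρ) (hρ1 : ρ ≤ 1) (hη : 0 ≤ η) (hηρ : η < ρ / 2)
    (hmean : ∀ i ∈ J, ∑ ω, X ω i = (Fintype.card Ω : ℝ) * (x i + ρ * (if 0 ≤ c i then 1 else -1)))
    (hX : ∀ ω, ∀ i ∈ J, |X ω i| ≤ 1) (hx : ∀ i ∈ J, |x i| ≤ 1)
    (hbad : (Bad.card : ℝ) ≤ (Fintype.card Ω : ℝ) * (ρ / 4))
    (F : Ω → ℝ) (hF : ∀ ω, 0 ≤ F ω) (B : ℝ)
    (hFB : ∑ ω ∈ univ \ Bad, F ω ≤ (Fintype.card Ω : ℝ) * B) :
    ∃ ω, ω ∉ Bad ∧ ∀ e : ι → ℝ, (∀ i ∈ J, |e i - X ω i| ≤ η) →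
      F ω - ∑ i ∈ J, c i * (e i - x i) ≤ 2 * B := by
  classical
  have hN : (0 : ℝ) < Fintype.card Ω := by exact_mod_cast Fintype.card_pos
  have hB0 : 0 ≤ B := by
    have h1 : 0 ≤ ∑ ω ∈ univ \ Bad, F ω := Finset.sum_nonneg fun ω _ => hF ω
    by_contra h
    push Not at h
    nlinarith
  set C : ℝ := ∑ i ∈ J, |c i| with hC
  have hC0 : 0 ≤ C := Finset.sum_nonneg fun i _ => abs_nonneg _
  suffices h : ∃ ω, ω ∉ Bad ∧ F ω - ∑ i ∈ J, c i * (X ω i - x i) + η * C ≤ 2 * B by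
    obtain ⟨ω, h1, h2⟩ := h
    refine ⟨ω, h1, fun e he => ?_⟩
    have h3 : ∑ i ∈ J, c i * (e i - x i)
        = ∑ i ∈ J, c i * (X ω i - x i) + ∑ i ∈ J, c i * (e i - X ω i) := by
      rw [← Finset.sum_add_distrib]
      refine Finset.sum_congr rfl fun i _ => ?_
      ring
    have h4 : |∑ i ∈ J, c i * (e i - X ω i)| ≤ η * C := by
      calc |∑ i ∈ J, c i * (e i - X ω i)| ≤ ∑ i ∈ J, |c i * (e i - X ω i)| :=
            Finset.abs_sum_le_sum_abs _ _
        _ ≤ ∑ i ∈ J, |c i| * η := by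
            refine Finset.sum_le_sum fun i hi => ?_
            rw [abs_mul]
            exact mul_le_mul_of_nonneg_left (he i hi) (abs_nonneg _)
        _ = η * C := by rw [← Finset.sum_mul, mul_comm]
    have h5 := neg_abs_le (∑ i ∈ J, c i * (e i - X ω i))
    linarith
  by_contra hcon
  push Not at hcon
  -- the number of outcomes outside `Bad`
  have hcompl : ((univ \ Bad).card : ℝ) = (Fintype.card Ω : ℝ) - Bad.card := by
    have h1 := Finset.card_sdiff_add_card_eq_card (Finset.subset_univ Bad)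
    rw [Finset.card_univ] at h1
    have h2 : (((univ \ Bad).card + Bad.card : ℕ) : ℝ) = Fintype.card Ω := by exact_mod_cast h1
    push_cast at h2
    linarith
  have hgpos : (Fintype.card Ω : ℝ) * (3 / 4) ≤ ((univ \ Bad).card : ℝ) := by
    rw [hcompl]
    nlinarith
  have hne : (univ \ Bad).Nonempty := by
    rw [← Finset.card_pos]
    have h1 : (0 : ℝ) < ((univ \ Bad).card : ℝ) := by
      refine lt_of_lt_of_le ?_ hgpos
      positivity
    exact_mod_cast h1
  have hsum : ∑ ω ∈ univ \ Bad, 2 * B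
      < ∑ ω ∈ univ \ Bad, (F ω - ∑ i ∈ J, c i * (X ω i - x i) + η * C) :=
    Finset.sum_lt_sum_of_nonempty hne fun ω hω => hcon ω (Finset.mem_sdiff.1 hω).2
  rw [Finset.sum_add_distrib, Finset.sum_sub_distrib, Finset.sum_const, Finset.sum_const,
    nsmul_eq_mul, nsmul_eq_mul] at hsum
  -- the linear part
  have hS : ∑ ω, ∑ i ∈ J, c i * (X ω i - x i) = (Fintype.card Ω : ℝ) * (ρ * C) := by
    rw [Finset.sum_comm]
    have h1 : ∀ i ∈ J, ∑ ω, c i * (X ω i - x i) = (Fintype.card Ω : ℝ) * (ρ * |c i|) := by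
      intro i hi
      rw [← Finset.mul_sum, Finset.sum_sub_distrib, hmean i hi, Finset.sum_const,
        Finset.card_univ, nsmul_eq_mul]
      split_ifs with h
      · rw [abs_of_nonneg h]; ring
      · rw [abs_of_neg (not_le.1 h)]; ring
    rw [Finset.sum_congr rfl h1, ← Finset.mul_sum, ← Finset.mul_sum]
  have hBadsum : ∑ ω ∈ Bad, ∑ i ∈ J, c i * (X ω i - x i)
      ≤ (Fintype.card Ω : ℝ) * (ρ / 4) * (2 * C) := by
    calc ∑ ω ∈ Bad, ∑ i ∈ J, c i * (X ω i - x i) ≤ ∑ ω ∈ Bad, 2 * C := by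
          refine Finset.sum_le_sum fun ω _ => ?_
          have h1 : ∑ i ∈ J, c i * (X ω i - x i) ≤ ∑ i ∈ J, |c i| * 2 := by
            refine Finset.sum_le_sum fun i hi => ?_
            calc c i * (X ω i - x i) ≤ |c i * (X ω i - x i)| := le_abs_self _
              _ = |c i| * |X ω i - x i| := abs_mul _ _
              _ ≤ |c i| * 2 := by
                refine mul_le_mul_of_nonneg_left ?_ (abs_nonneg _)
                calc |X ω i - x i| ≤ |X ω i| + |x i| := abs_sub _ _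
                  _ ≤ 1 + 1 := add_le_add (hX ω i hi) (hx i hi)
                  _ = 2 := by norm_num
          rw [← Finset.sum_mul] at h1
          linarith
      _ = (Bad.card : ℝ) * (2 * C) := by rw [Finset.sum_const, nsmul_eq_mul]
      _ ≤ (Fintype.card Ω : ℝ) * (ρ / 4) * (2 * C) :=
          mul_le_mul_of_nonneg_right hbad (by positivity)
  have hsplit := Finset.sum_sdiff (Finset.subset_univ Bad)
    (f := fun ω => ∑ i ∈ J, c i * (X ω i - x i))
  have h1 : ((univ \ Bad).card : ℝ) ≤ Fintype.card Ω := by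
    rw [hcompl]
    have : (0 : ℝ) ≤ Bad.card := Nat.cast_nonneg _
    linarith
  have h2 : ((univ \ Bad).card : ℝ) * (η * C) ≤ (Fintype.card Ω : ℝ) * (ρ / 2 * C) := by
    apply mul_le_mul h1 _ (by positivity) hN.le
    exact mul_le_mul_of_nonneg_right hηρ.le hC0
  have h3 : (Fintype.card Ω : ℝ) * (3 / 4) * (2 * B) ≤ ((univ \ Bad).card : ℝ) * (2 * B) :=
    mul_le_mul_of_nonneg_right hgpos (by positivity)
  have h4 : 0 ≤ (Fintype.card Ω : ℝ) * B := by positivity
  nlinarith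

/-- choice of the signs in all the clusters one after the other: abstract form -/
theorem glue {K : Type*} [Fintype K] [DecidableEq ι] (𝒬 : Finset (Finset ι))
    (hdisj : ∀ Q ∈ 𝒬, ∀ Q' ∈ 𝒬, Q ≠ Q' → Disjoint Q Q')
    (x : ι → ℝ) (φ : K → ι → ℝ) (m : K → Finset ι → ℝ) (hm : ∀ k, ∀ Q ∈ 𝒬, 0 ≤ m k Q)
    (Good : Finset ι → (ι → ℝ) → Prop)
    (hloc : ∀ Q ∈ 𝒬, ∀ e e' : ι → ℝ, (∀ i ∈ Q, e i = e' i) → Good Q e → Good Q e')
    (hstep : ∀ Q ∈ 𝒬, ∀ W : K → ℝ, (∀ k, 0 ≤ W k) → ∃ e : ι → ℝ, Good Q e ∧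
      ∑ k, W k * Real.exp (∑ i ∈ Q, φ k i * (e i - x i)) ≤ ∑ k, W k * m k Q)
    (w : K → ℝ) (hw : ∀ k, 0 ≤ w k) :
    ∃ e : ι → ℝ, (∀ Q ∈ 𝒬, Good Q e) ∧
      ∑ k, w k * Real.exp (∑ Q ∈ 𝒬, ∑ i ∈ Q, φ k i * (e i - x i))
        ≤ ∑ k, w k * ∏ Q ∈ 𝒬, m k Q := by
  classical
  induction 𝒬 using Finset.induction_on generalizing w with
  | empty =>
    refine ⟨x, by simp, ?_⟩
    simp
  | insert Q 𝒬 hQ ih =>
    obtain ⟨e1, he1, he1'⟩ := hstep Q (Finset.mem_insert_self _ _)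
      (fun k => w k * ∏ Q' ∈ 𝒬, m k Q') (fun k => mul_nonneg (hw k)
        (Finset.prod_nonneg fun Q' hQ' => hm k Q' (Finset.mem_insert_of_mem hQ')))
    obtain ⟨e2, he2, he2'⟩ := ih
      (fun A hA B hB => hdisj A (Finset.mem_insert_of_mem hA) B (Finset.mem_insert_of_mem hB))
      (fun k A hA => hm k A (Finset.mem_insert_of_mem hA))
      (fun A hA => hloc A (Finset.mem_insert_of_mem hA))
      (fun A hA => hstep A (Finset.mem_insert_of_mem hA))
      (fun k => w k * Real.exp (∑ i ∈ Q, φ k i * (e1 i - x i)))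
      (fun k => mul_nonneg (hw k) (Real.exp_pos _).le)
    set e : ι → ℝ := fun i => if i ∈ Q then e1 i else e2 i with he
    have h1 : ∀ i ∈ Q, e1 i = e i := fun i hi => by simp only [he]; rw [if_pos hi]
    have h2 : ∀ A ∈ 𝒬, ∀ i ∈ A, e2 i = e i := by
      intro A hA i hi
      have hne : A ≠ Q := fun h => hQ (h ▸ hA)
      have hd := hdisj A (Finset.mem_insert_of_mem hA) Q (Finset.mem_insert_self _ _) hne
      have hni : i ∉ Q := fun h => (Finset.disjoint_left.1 hd hi) h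
      simp only [he]
      rw [if_neg hni]
    refine ⟨e, ?_, ?_⟩
    · intro A hA
      rcases Finset.mem_insert.1 hA with h | h
      · rw [h]
        exact hloc Q (Finset.mem_insert_self _ _) e1 e h1 he1
      · exact hloc A hA e2 e (h2 A h) (he2 A h)
    · calc ∑ k, w k * Real.exp (∑ A ∈ insert Q 𝒬, ∑ i ∈ A, φ k i * (e i - x i))
          = ∑ k, w k * Real.exp (∑ i ∈ Q, φ k i * (e1 i - x i)) *
              Real.exp (∑ A ∈ 𝒬, ∑ i ∈ A, φ k i * (e2 i - x i)) := by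
            refine Finset.sum_congr rfl fun k _ => ?_
            rw [Finset.sum_insert hQ, Real.exp_add, mul_assoc]
            congr 2
            · congr 1
              exact Finset.sum_congr rfl fun i hi => by rw [h1 i hi]
            · congr 1
              refine Finset.sum_congr rfl fun A hA => Finset.sum_congr rfl fun i hi => ?_
              rw [h2 A hA i hi]
        _ ≤ ∑ k, w k * Real.exp (∑ i ∈ Q, φ k i * (e1 i - x i)) * ∏ A ∈ 𝒬, m k A := he2'
        _ = ∑ k, w k * (∏ A ∈ 𝒬, m k A) * Real.exp (∑ i ∈ Q, φ k i * (e1 i - x i)) := by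
            refine Finset.sum_congr rfl fun k _ => ?_
            ring
        _ ≤ ∑ k, w k * (∏ A ∈ 𝒬, m k A) * m k Q := he1'
        _ = ∑ k, w k * ∏ A ∈ insert Q 𝒬, m k A := by
            refine Finset.sum_congr rfl fun k _ => ?_
            rw [Finset.prod_insert hQ]
            ring

end Pool.Agent.LibT57
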