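import Pool.Agent.LibDB82.A7
import Pool.Agent.LibDB82.C1

set_option autoImplicit false

/-! Exponential moments of the real displacement of the rows: for outcomes without big step the position moves by the
sum of the virtual increments. -/

open Finset Pool.Agent.LibLoc73 Pool.Agent.LibDB82
open Pool.Agent.LibLev64 (M M_pos M_succ)

namespace Pool.Agent.LibT57

variable {ι κ : Type*} [Fintype ι] [Fintype κ] [DecidableEq ι]

/-- without big steps the position is the start plus the sum of the virtual increments -/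
theorem run_x_eq (P : LPar ι κ) (ω : ℕ → ι → Bool) (s : ℕ) (hbig : ∀ z, ¬ P.IsBig ω s z) (i : ι) :
    (P.run ω s).x i = P.x0 i + ∑ t ∈ range s, P.U ω t i := by
  induction s with
  | zero => simp [LPar.run]
  | succ s ih =>
    have h1 : ∀ z, ¬ P.IsBig ω s z := by
      intro z hz
      obtain ⟨t, ht, h⟩ := hz
      exact hbig z ⟨t, by omega, h⟩
    have h2 : (P.run ω (s + 1)).x i = P.newx s (P.run ω s) (ω s) i := rfl
    have h3 : i ∉ P.big s (P.run ω s) (ω s) := fun h => hbig i ⟨s, by omega, h⟩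
    rw [h2, Finset.sum_range_succ, ← add_assoc, ← ih h1]
    unfold LPar.newx LPar.U
    rw [if_neg h3]

/-- level `0` sees all the increments -/
theorem V_zero (P : LPar ι κ) (ω : ℕ → ι → Bool) (s : ℕ) (j : κ) :
    P.V ω s j 0 = ∑ t ∈ range s, P.toPar.row (P.U ω t) j := by
  unfold LPar.V
  refine Finset.sum_congr rfl fun t _ => ?_
  unfold LPar.inc Par.row
  refine Finset.sum_congr rfl fun i _ => ?_
  by_cases hi : i ∈ (P.run ω t).L
  · rw [if_pos ⟨hi, Nat.zero_le _⟩]
  · rw [if_neg (fun h => hi h.1)]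
    have h1 : i ∉ P.toPar.sla t (P.run ω t).L := fun h => hi (Finset.mem_filter.1 h).1
    have h2 : i ∉ P.toPar.piv t (P.run ω t).L := fun h => hi (Finset.mem_filter.1 h).1
    have h3 : P.U ω t i = 0 := upd_zero P t (P.run ω t) (ω t) i h2 h1
    rw [h3, mul_zero]

/-- without big steps the displacement of a row is the virtual displacement of level `0` -/
theorem row_real (P : LPar ι κ) (ω : ℕ → ι → Bool) (s : ℕ) (hbig : ∀ z, ¬ P.IsBig ω s z) (j : κ) :
    P.toPar.row (P.run ω s).x j - P.toPar.row P.x0 j = P.V ω s j 0 := by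
  rw [V_zero]
  unfold Par.row
  rw [← Finset.sum_sub_distrib, Finset.sum_comm]
  refine Finset.sum_congr rfl fun i _ => ?_
  rw [run_x_eq P ω s hbig i, ← Finset.mul_sum]
  ring

open Classical in
/-- exponential moments of the real displacement, restricted to the outcomes without big step -/
theorem em_real (P : LPar ι κ) (k : ℕ) (hP : P.Ok k) (τ : ℕ)
    (hr : 20 * P.δ ^ 2 * τ * (1 - 1 / P.Lc) ^ P.r ≤ 1) (ψ : κ → ℝ) :
    ∑ ω : Fin τ → ι → Bool, (if ∃ z, P.IsBig (ext τ ω) τ z then 0 else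
        Real.exp (∑ j, ψ j * (P.toPar.row (P.run (ext τ ω) τ).x j - P.toPar.row P.x0 j)))
      ≤ (2 ^ Fintype.card ι) ^ τ * Real.exp (324 * ∑ j, ψ j ^ 2) := by
  set θ : κ × Fin (P.H + 1) → ℝ := fun jl => if (jl.2 : ℕ) = 0 then 2 * ψ jl.1 else 0 with hθ
  have h1 := exp_moment P k hP τ hr θ (fun _ _ => 0)
  have hsum : ∀ f : κ × Fin (P.H + 1) → ℝ, (∀ jl, (jl.2 : ℕ) ≠ 0 → f jl = 0) →
      ∑ jl, f jl = ∑ j, f (j, 0) := by
    intro f hf
    rw [Fintype.sum_prod_type]
    refine Finset.sum_congr rfl fun j _ => ?_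
    refine Finset.sum_eq_single_of_mem (0 : Fin (P.H + 1)) (Finset.mem_univ _) ?_
    intro l _ hl
    refine hf (j, l) ?_
    intro h
    exact hl (Fin.ext h)
  have h2 : ∑ jl, θ jl ^ 2 = 4 * ∑ j, ψ j ^ 2 := by
    rw [hsum (fun jl => θ jl ^ 2) (by
      intro jl h
      simp only [hθ]
      rw [if_neg h]
      norm_num), Finset.mul_sum]
    refine Finset.sum_congr rfl fun j _ => ?_
    simp only [hθ]
    rw [if_pos (by simp)]
    ring
  have hM0 : M 0 = 1 / 2 := by
    unfold M
    norm_num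
  have h3 : ∀ ω : ℕ → ι → Bool, ∑ jl : κ × Fin (P.H + 1), θ jl * (M jl.2 * P.V ω τ jl.1 jl.2)
      = ∑ j, ψ j * P.V ω τ j 0 := by
    intro ω
    rw [hsum (fun jl => θ jl * (M jl.2 * P.V ω τ jl.1 jl.2)) (by
      intro jl h
      simp only [hθ]
      rw [if_neg h, zero_mul])]
    refine Finset.sum_congr rfl fun j _ => ?_
    simp only [hθ]
    rw [if_pos (by simp)]
    simp only [Fin.val_zero]
    rw [hM0]
    ring
  refine le_trans (Finset.sum_le_sum (g := fun ω : Fin τ → ι → Bool => Real.exp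
        (∑ jl, θ jl * (M jl.2 * P.V (ext τ ω) τ jl.1 jl.2)
          + ∑ s ∈ range τ, ∑ i ∈ P.toPar.sla s (P.run (ext τ ω) s).L,
              (0 : ℝ) * P.U (ext τ ω) s i)) fun ω _ => ?_) (h1.trans (le_of_eq ?_))
  · split_ifs with hb
    · positivity
    · apply Real.exp_le_exp.2
      rw [h3]
      simp only [zero_mul, Finset.sum_const_zero, add_zero]
      refine le_of_eq (Finset.sum_congr rfl fun j _ => ?_)
      rw [row_real P (ext τ ω) τ (fun z hz => hb ⟨z, hz⟩) j]
  · rw [h2]
    simp only [ne_eq, OfNat.ofNat_ne_zero, not_false_eq_true, zero_pow, Finset.sum_const_zero,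
      mul_zero, add_zero]
    congr 2
    ring

end Pool.Agent.LibT57
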