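import Pool.Agent.LibT57.Walk

set_option autoImplicit false

/-! The cluster step: in one cluster `Q` there is a signing with small rows which is good on average for a weighted family
of far functionals (second moment) and near functionals (subgaussian bound). -/

open Finset Pool.Agent.LibLoc73 Pool.Agent.LibDB82

namespace Pool.Agent.LibT57

variable {ι κ : Type*} [Fintype ι] [Fintype κ] [DecidableEq ι]

open Classical in
/-- Cluster step. `φ k` are linear functionals on the variables; if `near k`, then `φ k i = ⟨θ k, a i⟩` on `Q`,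
otherwise `|φ k i| ≤ 1/(2 b^83)` on `Q`. -/
theorem cluster_step (a : ι → κ → ℝ) (b n : ℕ) (hb : 4 ≤ b) (hn : b ^ 50 ≤ n)
    (hnb : (n : ℝ) ≤ Real.exp b)
    (hcard : Fintype.card ι ≤ n) (ep : ℝ) (hep0 : 0 < ep) (hep1 : ep ≤ 1)
    (hcol : ∀ i, ∑ j, (a i j) ^ 2 ≤ 1)
    (hrows : ∀ i, (univ.filter (fun j => a i j ≠ 0)).card ≤ n ^ 2)
    (hep : ∀ i j, |a i j| ≤ ep)
    (x : ι → ℝ) (hx : ∀ i, |x i| ≤ 1) (Q : Finset ι) (hQ : Q.card ≤ b ^ 83)
    {K : Type*} [Fintype K] (φ : K → ι → ℝ) (near : K → Prop) (θ : K → κ → ℝ)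
    (hnear : ∀ k, near k → ∀ i ∈ Q, φ k i = ∑ j, θ k j * a i j)
    (hfar : ∀ k, ¬ near k → ∀ i ∈ Q, |φ k i| ≤ 1 / (2 * (b : ℝ) ^ 83))
    (W : K → ℝ) (hW : ∀ k, 0 ≤ W k) :
    ∃ e : ι → ℝ, ((∀ i ∈ Q, |e i| = 1) ∧ ∀ j, |∑ i ∈ Q, a i j * (e i - x i)| ≤ KB b ep + 5) ∧
      ∑ k, W k * Real.exp (∑ i ∈ Q, φ k i * (e i - x i))
        ≤ ∑ k, W k * (if near k then Real.exp (327 * ∑ j, θ k j ^ 2 + 4)
            else Real.exp (4 * (b : ℝ) ^ 83 * ∑ i ∈ Q, φ k i ^ 2)) := by
  have hb' : (4 : ℝ) ≤ b := by exact_mod_cast hb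
  have hb0 : (0 : ℝ) < b := by linarith
  have hB0 : (0 : ℝ) < (b : ℝ) ^ 83 := by positivity
  have hQr : (Q.card : ℝ) ≤ (b : ℝ) ^ 83 := by exact_mod_cast hQ
  set ρ : ℝ := 1 / (4 * (b : ℝ) ^ 83) with hρ
  have hρ0 : 0 < ρ := by positivity
  set J : Finset ι := Q.filter (fun i => |x i| < 1 - 2 * ρ) with hJ
  set L : Finset ι := Q.filter (fun i => ¬ |x i| < 1 - 2 * ρ) with hL
  have hJc : J.card ≤ b ^ 83 := (Finset.card_le_card (Finset.filter_subset _ _)).trans hQ
  have hsplit : ∀ f : ι → ℝ, ∑ i ∈ Q, f i = ∑ i ∈ J, f i + ∑ i ∈ L, f i := fun f =>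
    (Finset.sum_filter_add_sum_filter_not Q (fun i => |x i| < 1 - 2 * ρ) f).symm
  -- the linear functional
  set c : ι → ℝ := fun i => - ∑ k ∈ univ.filter (fun k => ¬ near k), W k * φ k i with hc
  obtain ⟨e2, h4, h5, h6⟩ := near_round L x c ρ hρ0.le (fun i _ => hx i)
    (fun i hi => not_lt.1 (Finset.mem_filter.1 hi).2) (by
      have hLc : (L.card : ℝ) ≤ (b : ℝ) ^ 83 := by
        exact_mod_cast (Finset.card_le_card (Finset.filter_subset _ _)).trans hQ
      calc 2 * ρ * (L.card : ℝ) ≤ 2 * ρ * (b : ℝ) ^ 83 := by gcongr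
        _ = 1 / 2 := by rw [hρ]; field_simp; norm_num
        _ ≤ 1 := by norm_num)
  obtain ⟨e1, h1, h2, h3⟩ := walk2 a b n hb hn hnb hcard ep hep0 hep1 hcol hrows hep x hx J hJc
    (fun i hi => (Finset.mem_filter.1 hi).2) c (univ.filter (fun k => near k))
    (fun k => W k * Real.exp (3 * ((1 + ∑ j, θ k j ^ 2) / 2)))
    (fun k _ => mul_nonneg (hW k) (Real.exp_pos _).le) θ
  set e : ι → ℝ := fun i => if i ∈ J then e1 i else e2 i with he
  have hJe : ∀ i ∈ J, e i = e1 i := fun i hi => if_pos hi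
  have hLe : ∀ i ∈ L, e i = e2 i := by
    intro i hi
    have hni : ¬ (i ∈ J) := fun h => (Finset.mem_filter.1 hi).2 (Finset.mem_filter.1 h).2
    exact if_neg hni
  have hsp2 : ∀ f : ι → ℝ, ∑ i ∈ Q, f i * (e i - x i)
      = ∑ i ∈ J, f i * (e1 i - x i) + ∑ i ∈ L, f i * (e2 i - x i) := by
    intro f
    rw [hsplit]
    congr 1
    · exact Finset.sum_congr rfl fun i hi => by rw [hJe i hi]
    · exact Finset.sum_congr rfl fun i hi => by rw [hLe i hi]
  have hee : ∀ i ∈ Q, |e i| = 1 := by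
    intro i hi
    by_cases h : i ∈ J
    · rw [hJe i h]; exact h1 i h
    · have hiL : i ∈ L := Finset.mem_filter.2 ⟨hi, fun hcc => h (Finset.mem_filter.2 ⟨hi, hcc⟩)⟩
      rw [hLe i hiL]
      exact h4 i hiL
  refine ⟨e, ⟨hee, ?_⟩, ?_⟩
  · intro j
    rw [hsp2 (fun i => a i j)]
    have q3 : |∑ i ∈ L, a i j * (e2 i - x i)| ≤ 3 := by
      calc |∑ i ∈ L, a i j * (e2 i - x i)|
          ≤ ∑ i ∈ L, |a i j * (e2 i - x i)| := Finset.abs_sum_le_sum_abs _ _
        _ ≤ ∑ i ∈ L, |e2 i - x i| := by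
            refine Finset.sum_le_sum fun i _ => ?_
            rw [abs_mul]
            calc |a i j| * |e2 i - x i| ≤ 1 * |e2 i - x i| :=
                  mul_le_mul_of_nonneg_right ((hep i j).trans hep1) (abs_nonneg _)
              _ = _ := one_mul _
        _ ≤ 3 := h6
    refine (abs_add_le _ _).trans ?_
    linarith [h2 j]
  · -- split the sum
    have hsumK : ∀ f : K → ℝ, ∑ k, f k = ∑ k ∈ univ.filter (fun k => near k), f k
        + ∑ k ∈ univ.filter (fun k => ¬ near k), f k := fun f =>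
      (Finset.sum_filter_add_sum_filter_not univ (fun k => near k) f).symm
    rw [hsumK, hsumK (fun k => W k * (if near k then Real.exp (327 * ∑ j, θ k j ^ 2 + 4)
            else Real.exp (4 * (b : ℝ) ^ 83 * ∑ i ∈ Q, φ k i ^ 2)))]
    -- the near part
    have hN1 : ∑ k ∈ univ.filter (fun k => near k),
          W k * Real.exp (∑ i ∈ Q, φ k i * (e i - x i))
        ≤ ∑ k ∈ univ.filter (fun k => near k),
          W k * Real.exp (3 * ((1 + ∑ j, θ k j ^ 2) / 2)) *
            Real.exp (∑ i ∈ J, (∑ j, θ k j * a i j) * (e1 i - x i)) := by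
      refine Finset.sum_le_sum fun k hk => ?_
      have hk' := (Finset.mem_filter.1 hk).2
      rw [mul_assoc, ← Real.exp_add]
      apply mul_le_mul_of_nonneg_left _ (hW k)
      apply Real.exp_le_exp.2
      rw [hsp2 (φ k)]
      have q1 : ∑ i ∈ J, φ k i * (e1 i - x i) = ∑ i ∈ J, (∑ j, θ k j * a i j) * (e1 i - x i) :=
        Finset.sum_congr rfl fun i hi => by
          rw [hnear k hk' i (Finset.filter_subset _ _ hi)]
      have q2 : ∑ i ∈ L, φ k i * (e2 i - x i) ≤ 3 * ((1 + ∑ j, θ k j ^ 2) / 2) := by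
        have hM0 : 0 ≤ (1 + ∑ j, θ k j ^ 2) / 2 := by
          have : 0 ≤ ∑ j, θ k j ^ 2 := Finset.sum_nonneg fun _ _ => sq_nonneg _
          positivity
        calc ∑ i ∈ L, φ k i * (e2 i - x i)
            ≤ ∑ i ∈ L, (1 + ∑ j, θ k j ^ 2) / 2 * |e2 i - x i| := by
              refine Finset.sum_le_sum fun i hi => ?_
              refine (le_abs_self _).trans ?_
              rw [abs_mul]
              refine mul_le_mul_of_nonneg_right ?_ (abs_nonneg _)
              rw [hnear k hk' i (Finset.filter_subset _ _ hi)]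
              exact ip_le (θ k) (a i) (hcol i)
          _ = (1 + ∑ j, θ k j ^ 2) / 2 * ∑ i ∈ L, |e2 i - x i| := by rw [Finset.mul_sum]
          _ ≤ (1 + ∑ j, θ k j ^ 2) / 2 * 3 := mul_le_mul_of_nonneg_left h6 hM0
          _ = _ := by ring
      rw [q1]
      linarith
    -- the far part
    have hF1 : ∑ k ∈ univ.filter (fun k => ¬ near k),
          W k * Real.exp (∑ i ∈ Q, φ k i * (e i - x i))
        ≤ ∑ k ∈ univ.filter (fun k => ¬ near k),
            W k * Real.exp (4 * (b : ℝ) ^ 83 * ∑ i ∈ Q, φ k i ^ 2)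
          - ∑ i ∈ Q, c i * (e i - x i) := by
      have hlin : - ∑ i ∈ Q, c i * (e i - x i)
          = ∑ k ∈ univ.filter (fun k => ¬ near k), W k * ∑ i ∈ Q, φ k i * (e i - x i) := by
        simp only [hc]
        rw [← Finset.sum_neg_distrib]
        calc ∑ i ∈ Q, -(-(∑ k ∈ univ.filter (fun k => ¬ near k), W k * φ k i) * (e i - x i))
            = ∑ i ∈ Q, ∑ k ∈ univ.filter (fun k => ¬ near k),
                W k * (φ k i * (e i - x i)) := by
              refine Finset.sum_congr rfl fun i _ => ?_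
              rw [neg_mul, neg_neg, Finset.sum_mul]
              refine Finset.sum_congr rfl fun k _ => ?_
              ring
          _ = _ := by
              rw [Finset.sum_comm]
              refine Finset.sum_congr rfl fun k _ => ?_
              rw [Finset.mul_sum]
      rw [sub_eq_add_neg, hlin, ← Finset.sum_add_distrib]
      refine Finset.sum_le_sum fun k hk => ?_
      have hk' := (Finset.mem_filter.1 hk).2
      rw [← mul_add]
      apply mul_le_mul_of_nonneg_left _ (hW k)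
      set X : ℝ := ∑ i ∈ Q, φ k i * (e i - x i) with hX
      have hz : ∀ i ∈ Q, |e i - x i| ≤ 2 := by
        intro i hi
        calc |e i - x i| ≤ |e i| + |x i| := abs_sub _ _
          _ ≤ 1 + 1 := add_le_add (hee i hi).le (hx i)
          _ = 2 := by norm_num
      have hX1 : |X| ≤ 1 := by
        calc |X| ≤ ∑ i ∈ Q, |φ k i * (e i - x i)| := Finset.abs_sum_le_sum_abs _ _
          _ ≤ ∑ _i ∈ Q, 1 / (2 * (b : ℝ) ^ 83) * 2 := by
              refine Finset.sum_le_sum fun i hi => ?_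
              rw [abs_mul]
              exact mul_le_mul (hfar k hk' i hi) (hz i hi) (abs_nonneg _) (by positivity)
          _ = (Q.card : ℝ) * (1 / (2 * (b : ℝ) ^ 83) * 2) := by
              rw [Finset.sum_const, nsmul_eq_mul]
          _ ≤ (b : ℝ) ^ 83 * (1 / (2 * (b : ℝ) ^ 83) * 2) := by gcongr
          _ = 1 := by field_simp
      have hX2 : X ^ 2 ≤ 4 * (b : ℝ) ^ 83 * ∑ i ∈ Q, φ k i ^ 2 := by
        have q1 : X ^ 2 ≤ (Q.card : ℝ) * ∑ i ∈ Q, (φ k i * (e i - x i)) ^ 2 :=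
          sq_sum_le_card_mul_sum_sq
        have q2 : ∑ i ∈ Q, (φ k i * (e i - x i)) ^ 2 ≤ 4 * ∑ i ∈ Q, φ k i ^ 2 := by
          rw [Finset.mul_sum]
          refine Finset.sum_le_sum fun i hi => ?_
          rw [mul_pow]
          have q3 : (e i - x i) ^ 2 ≤ 4 := by
            rw [← sq_abs]
            calc |e i - x i| ^ 2 ≤ 2 ^ 2 := pow_le_pow_left₀ (abs_nonneg _) (hz i hi) 2
              _ = 4 := by norm_num
          nlinarith [sq_nonneg (φ k i)]
        have q4 : 0 ≤ ∑ i ∈ Q, φ k i ^ 2 := Finset.sum_nonneg fun _ _ => sq_nonneg _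
        calc X ^ 2 ≤ (Q.card : ℝ) * ∑ i ∈ Q, (φ k i * (e i - x i)) ^ 2 := q1
          _ ≤ (Q.card : ℝ) * (4 * ∑ i ∈ Q, φ k i ^ 2) := by gcongr
          _ ≤ (b : ℝ) ^ 83 * (4 * ∑ i ∈ Q, φ k i ^ 2) := by gcongr
          _ = _ := by ring
      have q5 := Real.abs_exp_sub_one_sub_id_le hX1
      have q6 := (abs_le.1 q5).2
      have q7 := Real.add_one_le_exp (4 * (b : ℝ) ^ 83 * ∑ i ∈ Q, φ k i ^ 2)
      linarith
    have hN2 : ∑ k ∈ univ.filter (fun k => near k),
          W k * Real.exp (3 * ((1 + ∑ j, θ k j ^ 2) / 2)) *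
            Real.exp (325 * ∑ j, θ k j ^ 2 + 2)
        ≤ ∑ k ∈ univ.filter (fun k => near k), W k * (if near k then
            Real.exp (327 * ∑ j, θ k j ^ 2 + 4)
            else Real.exp (4 * (b : ℝ) ^ 83 * ∑ i ∈ Q, φ k i ^ 2)) := by
      refine Finset.sum_le_sum fun k hk => ?_
      rw [if_pos (Finset.mem_filter.1 hk).2, mul_assoc, ← Real.exp_add]
      apply mul_le_mul_of_nonneg_left _ (hW k)
      apply Real.exp_le_exp.2
      have : 0 ≤ ∑ j, θ k j ^ 2 := Finset.sum_nonneg fun _ _ => sq_nonneg _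
      linarith
    have hF2 : ∑ k ∈ univ.filter (fun k => ¬ near k), W k * (if near k then
            Real.exp (327 * ∑ j, θ k j ^ 2 + 4)
            else Real.exp (4 * (b : ℝ) ^ 83 * ∑ i ∈ Q, φ k i ^ 2))
        = ∑ k ∈ univ.filter (fun k => ¬ near k),
            W k * Real.exp (4 * (b : ℝ) ^ 83 * ∑ i ∈ Q, φ k i ^ 2) := by
      refine Finset.sum_congr rfl fun k hk => ?_
      rw [if_neg (Finset.mem_filter.1 hk).2]
    rw [hF2]
    rw [hsp2 c] at hF1
    linarith

end Pool.Agent.LibT57
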