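import Pool.Agent.LibDB82.Comp

set_option autoImplicit false

/-! Exponential moments of the number of clusters that meet a given set of variables. -/

open Finset

namespace Pool.Agent.LibT57

open Pool.Agent.LibDB82

variable {ι : Type*}

open Classical in
/-- number of components of `T` that meet `A` -/
noncomputable def ncl (R : ι → ι → Prop) (A T : Finset ι) : ℕ :=
  ((cmps R T).filter (fun Q => ∃ i ∈ Q, i ∈ A)).card

open Classical in
theorem ncl_eq (R : ι → ι → Prop) (A T : Finset ι) : ∃ 𝒬 : Finset (Finset ι), 𝒬.card = ncl R A T ∧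
      ∀ Q, Q ∈ 𝒬 ↔ Q ∈ cmps R T ∧ ∃ i ∈ Q, i ∈ A := by
  unfold ncl
  exact ⟨_, rfl, fun Q => Finset.mem_filter⟩

variable [DecidableEq ι]

open Classical in
/-- binomial expansion over the subsets of a set of representatives -/
theorem pow_ncl_le (R : ι → ι → Prop) (hR : ∀ i i', R i i' → R i' i) (A T : Finset ι)
    (s : ℝ) (hs : 1 ≤ s) :
    s ^ ncl R A T ≤ ∑ I ∈ A.powerset, if (I ⊆ T ∧
      ∀ i ∈ I, ∀ i' ∈ I, i ≠ i' → ¬ R i i') then (s - 1) ^ I.card else 0 := by
  obtain ⟨𝒬, h𝒬1, h𝒬2⟩ := ncl_eq R A T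
  have hrep : ∀ Q ∈ 𝒬, ∃ i : ι, i ∈ Q ∧ i ∈ A := by
    intro Q hQ
    exact ((h𝒬2 Q).1 hQ).2
  choose f hf using hrep
  have hcm : ∀ Q ∈ 𝒬, Q ∈ cmps R T := fun Q hQ => ((h𝒬2 Q).1 hQ).1
  have hQT : ∀ Q ∈ cmps R T, Q ⊆ T := by
    intro Q hQ
    obtain ⟨i0, hi0, rfl⟩ := (mem_cmps _ T Q).1 hQ
    intro i hi
    exact ((mem_cmp _ T i0 i).1 hi).1
  set I0 : Finset ι := 𝒬.attach.image (fun Q => f Q.1 Q.2) with hI0
  have hinj : Function.Injective (fun Q : {Q // Q ∈ 𝒬} => f Q.1 Q.2) := by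
    intro Q Q' h
    by_contra hne
    have hne' : Q.1 ≠ Q'.1 := fun h' => hne (Subtype.ext h')
    have hd := cmps_disj R hR T Q.1 (hcm _ Q.2) Q'.1 (hcm _ Q'.2) hne'
    have h1 := (hf Q.1 Q.2).1
    have h2 := (hf Q'.1 Q'.2).1
    simp only at h
    rw [h] at h1
    exact Finset.disjoint_left.1 hd h1 h2
  have hcard : I0.card = ncl R A T := by
    rw [hI0, Finset.card_image_of_injective _ hinj, Finset.card_attach]
    exact h𝒬1
  have hmem : ∀ i ∈ I0, ∃ Q, ∃ hQ : Q ∈ 𝒬, f Q hQ = i := by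
    intro i hi
    obtain ⟨Q, _, h⟩ := Finset.mem_image.1 hi
    exact ⟨Q.1, Q.2, h⟩
  have hIA : I0 ⊆ A := by
    intro i hi
    obtain ⟨Q, hQ, rfl⟩ := hmem i hi
    exact (hf Q hQ).2
  have hIT : I0 ⊆ T := by
    intro i hi
    obtain ⟨Q, hQ, rfl⟩ := hmem i hi
    exact hQT Q (hcm Q hQ) (hf Q hQ).1
  have hIR : ∀ i ∈ I0, ∀ i' ∈ I0, i ≠ i' → ¬ R i i' := by
    intro i hi i' hi' hne hRR
    obtain ⟨Q, hQ, rfl⟩ := hmem i hi
    obtain ⟨Q', hQ', rfl⟩ := hmem i' hi'
    have hne' : Q ≠ Q' := by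
      intro h
      subst h
      exact hne rfl
    have hd := cmps_disj R hR T Q (hcm _ hQ) Q' (hcm _ hQ') hne'
    have h1 := (hf Q hQ).1
    have h2 := (hf Q' hQ').1
    obtain ⟨i0, hi0, h0⟩ := (mem_cmps _ T Q).1 (hcm Q hQ)
    have h3 : f Q' hQ' ∈ Q := by
      have h4 : f Q hQ ∈ cmp R T i0 := by rw [h0]; exact h1
      have h5 := adj_cmp R T i0 (f Q hQ) (f Q' hQ') h4 (hIT hi') hRR
      rw [h0] at h5
      exact h5
    exact Finset.disjoint_left.1 hd h3 h2
  have h1 : s ^ ncl R A T = ∑ I ∈ I0.powerset, (s - 1) ^ I.card := by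
    rw [← hcard]
    have h2 := Finset.sum_pow_mul_eq_add_pow (s - 1) 1 I0
    simp only [one_pow, mul_one, sub_add_cancel] at h2
    exact h2.symm
  rw [h1]
  have hnn : ∀ I : Finset ι, 0 ≤ (s - 1) ^ I.card := fun I => pow_nonneg (by linarith) _
  calc ∑ I ∈ I0.powerset, (s - 1) ^ I.card
      = ∑ I ∈ I0.powerset, if (I ⊆ T ∧
          ∀ i ∈ I, ∀ i' ∈ I, i ≠ i' → ¬ R i i') then (s - 1) ^ I.card else 0 := by
        refine Finset.sum_congr rfl fun I hI => ?_
        have h2 := Finset.mem_powerset.1 hI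
        rw [if_pos ⟨h2.trans hIT, fun i hi i' hi' => hIR i (h2 hi) i' (h2 hi')⟩]
    _ ≤ _ := by
        refine Finset.sum_le_sum_of_subset_of_nonneg (Finset.powerset_mono.2 hIA) ?_
        intro I _ _
        split_ifs
        · exact hnn I
        · exact le_rfl

open Classical in
/-- exponential moment of the number of clusters meeting `A`, for a random set `T` with independent-like bounds -/
theorem mean_ncl {Ω : Type*} [Fintype Ω] (R : ι → ι → Prop) (hR : ∀ i i', R i i' → R i' i)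
    (A : Finset ι) (T : Ω → Finset ι) (N q : ℝ) (hq : 0 ≤ q)
    (hT : ∀ I : Finset ι, (∀ i ∈ I, ∀ i' ∈ I, i ≠ i' → ¬ R i i') →
      (((univ : Finset Ω).filter (fun ω => I ⊆ T ω)).card : ℝ) ≤ N * q ^ I.card)
    (s : ℝ) (hs : 1 ≤ s) :
    ∑ ω, s ^ ncl R A (T ω) ≤ N * (1 + (s - 1) * q) ^ A.card := by
  calc ∑ ω, s ^ ncl R A (T ω)
      ≤ ∑ ω, ∑ I ∈ A.powerset, if (I ⊆ T ω ∧
          ∀ i ∈ I, ∀ i' ∈ I, i ≠ i' → ¬ R i i') then (s - 1) ^ I.card else 0 :=
        Finset.sum_le_sum fun ω _ => pow_ncl_le R hR A (T ω) s hs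
    _ = ∑ I ∈ A.powerset, ∑ ω, if (I ⊆ T ω ∧
          ∀ i ∈ I, ∀ i' ∈ I, i ≠ i' → ¬ R i i') then (s - 1) ^ I.card else 0 :=
        Finset.sum_comm
    _ ≤ ∑ I ∈ A.powerset, N * ((s - 1) * q) ^ I.card := by
        refine Finset.sum_le_sum fun I _ => ?_
        have hN : 0 ≤ N := by
          have h0 := hT ∅ (by simp)
          simp only [Finset.card_empty, pow_zero, mul_one] at h0
          exact le_trans (Nat.cast_nonneg _) h0
        by_cases h : ∀ i ∈ I, ∀ i' ∈ I, i ≠ i' → ¬ R i i'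
        · have h1 := hT I h
          have h2 : ∑ ω, (if (I ⊆ T ω ∧
              ∀ i ∈ I, ∀ i' ∈ I, i ≠ i' → ¬ R i i') then (s - 1) ^ I.card else 0)
              = (((univ : Finset Ω).filter (fun ω => I ⊆ T ω)).card : ℝ) * (s - 1) ^ I.card := by
            rw [← Finset.sum_filter, Finset.sum_const, nsmul_eq_mul]
            congr 3
            ext ω
            simp only [Finset.mem_filter, Finset.mem_univ, true_and]
            exact ⟨fun h3 => h3.1, fun h3 => ⟨h3, h⟩⟩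
          rw [h2]
          calc _ ≤ (N * q ^ I.card) * (s - 1) ^ I.card := by
                apply mul_le_mul_of_nonneg_right h1
                exact pow_nonneg (by linarith) _
            _ = N * ((s - 1) * q) ^ I.card := by rw [mul_pow]; ring
        · have h2 : ∑ ω, (if (I ⊆ T ω ∧
              ∀ i ∈ I, ∀ i' ∈ I, i ≠ i' → ¬ R i i') then (s - 1) ^ I.card else 0) = (0 : ℝ) := by
            refine Finset.sum_eq_zero fun ω _ => ?_
            rw [if_neg (fun h3 => h h3.2)]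
          rw [h2]
          have : 0 ≤ (s - 1) * q := mul_nonneg (by linarith) hq
          positivity
    _ = N * (1 + (s - 1) * q) ^ A.card := by
        rw [← Finset.mul_sum]
        congr 1
        have h2 := Finset.sum_pow_mul_eq_add_pow ((s - 1) * q) 1 A
        simp only [one_pow, mul_one] at h2
        rw [h2, add_comm]

end Pool.Agent.LibT57
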