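import Pool.Agent.LibDB82.S1a

set_option autoImplicit false

/-! Numbers for stage 1. -/

open Finset

namespace Pool.Agent.LibT57

open Pool.Agent.LibDB82

theorem pow5_le_exp (b : ℕ) (hb : 100 ≤ b) : (b : ℝ) ^ 5 ≤ Real.exp b := by
  have hb' : (100 : ℝ) ≤ b := by exact_mod_cast hb
  have hb0 : (0 : ℝ) < b := by linarith
  have h1 : (b : ℝ) / 10 ≤ Real.exp ((b : ℝ) / 10) := by
    linarith [Real.add_one_le_exp ((b : ℝ) / 10)]
  have h2 : Real.exp b = (Real.exp ((b : ℝ) / 10)) ^ 10 := by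
    rw [← Real.exp_nat_mul]
    congr 1
    push_cast
    ring
  rw [h2]
  have h3 : ((b : ℝ) / 10) ^ 10 ≤ (Real.exp ((b : ℝ) / 10)) ^ 10 :=
    pow_le_pow_left₀ (by positivity) h1 10
  refine le_trans ?_ h3
  have h4 : ((b : ℝ) / 10) ^ 10 = (b : ℝ) ^ 5 * ((b : ℝ) ^ 5 / 10 ^ 10) := by
    rw [div_pow]
    ring
  rw [h4]
  have h5 : (1 : ℝ) ≤ (b : ℝ) ^ 5 / 10 ^ 10 := by
    rw [le_div_iff₀ (by positivity), one_mul]
    calc (10 : ℝ) ^ 10 = 100 ^ 5 := by norm_num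
      _ ≤ (b : ℝ) ^ 5 := pow_le_pow_left₀ (by norm_num) hb' 5
  nlinarith [pow_pos hb0 5]

theorem exp_neg_le5 (b : ℕ) (hb : 100 ≤ b) (y : ℝ) (hy : (b : ℝ) ≤ y) :
    Real.exp (-y) ≤ 1 / (b : ℝ) ^ 5 := by
  have hb0 : (0 : ℝ) < b := by
    have : (100 : ℝ) ≤ b := by exact_mod_cast hb
    linarith
  rw [Real.exp_neg, ← one_div]
  apply one_div_le_one_div_of_le (by positivity)
  exact (pow5_le_exp b hb).trans (Real.exp_le_exp.2 hy)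

/-- exponential of `b` against powers `b ^ b` -/
theorem exp_mul_le_pow (b m : ℕ) (hb : 100 ≤ b) : Real.exp (m * b) ≤ (b : ℝ) ^ (m * b) := by
  have hb' : (100 : ℝ) ≤ b := by exact_mod_cast hb
  have h3 : Real.exp 1 ≤ b := by linarith [Real.exp_one_lt_d9]
  calc Real.exp (m * b) = (Real.exp 1) ^ (m * b) := by
        rw [← Real.exp_nat_mul, mul_one]
        push_cast
        rfl
    _ ≤ (b : ℝ) ^ (m * b) := pow_le_pow_left₀ (Real.exp_pos _).le h3 _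

theorem t1 (b n : ℕ) (hb : 100 ≤ b) (hn : b ^ 50 ≤ n) :
    (n : ℝ) * (1 / (n : ℝ) ^ 100) ≤ 1 / (b : ℝ) ^ 5 := by
  have hb' : (100 : ℝ) ≤ b := by exact_mod_cast hb
  have hb0 : (0 : ℝ) < b := by linarith
  have hn' : (b : ℝ) ^ 50 ≤ n := by exact_mod_cast hn
  have hn0 : (0 : ℝ) < n := lt_of_lt_of_le (by positivity) hn'
  have h3 : (n : ℝ) * (1 / (n : ℝ) ^ 100) = 1 / (n : ℝ) ^ 99 := by field_simp
  rw [h3]
  apply one_div_le_one_div_of_le (by positivity)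
  have h1 : (1 : ℝ) ≤ n := le_trans (one_le_pow₀ (by linarith)) hn'
  calc (b : ℝ) ^ 5 ≤ (b : ℝ) ^ 50 := pow_le_pow_right₀ (by linarith) (by norm_num)
    _ ≤ n := hn'
    _ = (n : ℝ) ^ 1 := (pow_one _).symm
    _ ≤ (n : ℝ) ^ 99 := pow_le_pow_right₀ h1 (by norm_num)

theorem t3 (b n : ℕ) (hb : 100 ≤ b) (hnb : (n : ℝ) ≤ Real.exp b) (r : ℝ) (hr0 : 0 ≤ r)
    (hr : r ≤ (n : ℝ) ^ 3) : r * Real.exp (-(2000 * b)) ≤ 1 / (b : ℝ) ^ 5 := by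
  have hb' : (100 : ℝ) ≤ b := by exact_mod_cast hb
  have h1 : (n : ℝ) ^ 3 ≤ Real.exp (3 * b) := by
    calc (n : ℝ) ^ 3 ≤ (Real.exp b) ^ 3 := pow_le_pow_left₀ (by positivity) hnb 3
      _ = Real.exp (3 * b) := by rw [← Real.exp_nat_mul]; norm_num
  calc r * Real.exp (-(2000 * b)) ≤ Real.exp (3 * b) * Real.exp (-(2000 * b)) := by
        apply mul_le_mul_of_nonneg_right (hr.trans h1) (Real.exp_pos _).le
    _ = Real.exp (-(1997 * b)) := by rw [← Real.exp_add]; congr 1; ring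
    _ ≤ 1 / (b : ℝ) ^ 5 := exp_neg_le5 b hb _ (by linarith)

theorem t4 (b n : ℕ) (hb : 100 ≤ b) (hnb : (n : ℝ) ≤ Real.exp b) :
    (n : ℝ) * Real.exp (-(3 * b)) ≤ 1 / (b : ℝ) ^ 5 := by
  have hb' : (100 : ℝ) ≤ b := by exact_mod_cast hb
  calc (n : ℝ) * Real.exp (-(3 * b)) ≤ Real.exp b * Real.exp (-(3 * b)) := by
        apply mul_le_mul_of_nonneg_right hnb (Real.exp_pos _).le
    _ = Real.exp (-(2 * b)) := by rw [← Real.exp_add]; congr 1; ring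
    _ ≤ 1 / (b : ℝ) ^ 5 := exp_neg_le5 b hb _ (by linarith)

theorem t5 (b n : ℕ) (hb : 100 ≤ b) (hnb : (n : ℝ) ≤ Real.exp b) :
    (n : ℝ) * (((b ^ 646 : ℕ) : ℝ) ^ (2 * b) * (1 / (b : ℝ) ^ 1500) ^ (b + 1))
      ≤ 1 / (b : ℝ) ^ 5 := by
  have hb' : (100 : ℝ) ≤ b := by exact_mod_cast hb
  have hb0 : (0 : ℝ) < b := by linarith
  have h1 : ((b ^ 646 : ℕ) : ℝ) ^ (2 * b) * (1 / (b : ℝ) ^ 1500) ^ (b + 1)
      = 1 / ((b : ℝ) ^ (208 * b + 1500)) := by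
    push_cast
    exact pow_aux (b : ℝ) hb0 646 1500 (2 * b) (b + 1) (208 * b + 1500) (by omega)
  have h2 : Real.exp b ≤ (b : ℝ) ^ (1 * b) := by
    have := exp_mul_le_pow b 1 hb
    push_cast at this
    rwa [one_mul] at this
  rw [h1, mul_one_div, div_le_div_iff₀ (by positivity) (by positivity)]
  calc (n : ℝ) * (b : ℝ) ^ 5 ≤ (b : ℝ) ^ (1 * b) * (b : ℝ) ^ 5 := by
        gcongr
        exact hnb.trans h2
    _ = (b : ℝ) ^ (1 * b + 5) := by rw [← pow_add]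
    _ ≤ (b : ℝ) ^ (208 * b + 1500) := pow_le_pow_right₀ (by linarith) (by omega)
    _ = 1 * (b : ℝ) ^ (208 * b + 1500) := (one_mul _).symm

theorem t6 (b : ℕ) (hb : 100 ≤ b) (r : ℝ) (hr0 : 0 ≤ r) (hr : r ≤ Real.exp (4 * b)) :
    r * (((b ^ 82 : ℕ) : ℝ) * Real.exp (-((b : ℝ) ^ 240 * (1 / (b : ℝ) ^ 90) / ((b ^ 82 : ℕ) : ℝ))
      + 2 * (b : ℝ) ^ 240 * (1 / (b : ℝ) ^ 1500) * (b : ℝ) ^ 2)) ≤ 1 / (b : ℝ) ^ 5 := by
  have hb' : (100 : ℝ) ≤ b := by exact_mod_cast hb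
  have hb0 : (0 : ℝ) < b := by linarith
  have h2 : ((b ^ 82 : ℕ) : ℝ) ≤ Real.exp (82 * b) := by
    push_cast
    exact_mod_cast pow_le_exp_mul b 82 (by omega)
  have h3 : (b : ℝ) ^ 240 * (1 / (b : ℝ) ^ 90) / ((b ^ 82 : ℕ) : ℝ) = (b : ℝ) ^ 68 := by
    push_cast
    field_simp
  have h4 : 2 * (b : ℝ) ^ 240 * (1 / (b : ℝ) ^ 1500) * (b : ℝ) ^ 2 ≤ 1 := by
    have : 2 * (b : ℝ) ^ 240 * (1 / (b : ℝ) ^ 1500) * (b : ℝ) ^ 2 = 2 / (b : ℝ) ^ 1258 := by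
      field_simp
    rw [this, div_le_one (by positivity)]
    calc (2 : ℝ) ≤ b := by linarith
      _ = (b : ℝ) ^ 1 := (pow_one _).symm
      _ ≤ (b : ℝ) ^ 1258 := pow_le_pow_right₀ (by linarith) (by norm_num)
  have h5 : 1000 * (b : ℝ) ≤ (b : ℝ) ^ 68 := by
    calc 1000 * (b : ℝ) ≤ (b : ℝ) ^ 67 * b := by
          apply mul_le_mul_of_nonneg_right _ hb0.le
          calc (1000 : ℝ) ≤ 100 ^ 67 := by norm_num
            _ ≤ (b : ℝ) ^ 67 := pow_le_pow_left₀ (by norm_num) hb' 67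
      _ = (b : ℝ) ^ 68 := by ring
  calc _ ≤ Real.exp (4 * b) * (Real.exp (82 * b) * Real.exp (-(1000 * b) + 1)) := by
        apply mul_le_mul hr _ (by positivity) (Real.exp_pos _).le
        apply mul_le_mul h2 _ (Real.exp_pos _).le (Real.exp_pos _).le
        apply Real.exp_le_exp.2
        rw [h3]
        linarith
    _ = Real.exp (-(914 * b - 1)) := by
        rw [← Real.exp_add, ← Real.exp_add]
        congr 1
        ring
    _ ≤ 1 / (b : ℝ) ^ 5 := exp_neg_le5 b hb _ (by linarith)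

/-- base of the exponential moment used for the tail of the number of near clusters -/
theorem t7a (b : ℕ) (hb : 100 ≤ b) (A : ℕ) (hA : A ≤ b ^ 242) :
    (1 + ((b : ℝ) ^ 1250 - 1) * (1 / (b : ℝ) ^ 1500)) ^ A ≤ Real.exp 1 := by
  have hb' : (100 : ℝ) ≤ b := by exact_mod_cast hb
  have hb0 : (0 : ℝ) < b := by linarith
  have h1 : 1 + ((b : ℝ) ^ 1250 - 1) * (1 / (b : ℝ) ^ 1500)
      ≤ Real.exp (1 / (b : ℝ) ^ 250) := by
    have h2 : ((b : ℝ) ^ 1250 - 1) * (1 / (b : ℝ) ^ 1500) ≤ 1 / (b : ℝ) ^ 250 := by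
      calc ((b : ℝ) ^ 1250 - 1) * (1 / (b : ℝ) ^ 1500) ≤ (b : ℝ) ^ 1250 * (1 / (b : ℝ) ^ 1500) := by
            gcongr
            linarith
        _ = 1 / (b : ℝ) ^ 250 := by field_simp
    linarith [Real.add_one_le_exp (1 / (b : ℝ) ^ 250)]
  have h0 : 0 ≤ 1 + ((b : ℝ) ^ 1250 - 1) * (1 / (b : ℝ) ^ 1500) := by
    have : (1 : ℝ) ≤ (b : ℝ) ^ 1250 := one_le_pow₀ (by linarith)
    have : 0 ≤ ((b : ℝ) ^ 1250 - 1) * (1 / (b : ℝ) ^ 1500) :=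
      mul_nonneg (by linarith) (by positivity)
    linarith
  calc _ ≤ (Real.exp (1 / (b : ℝ) ^ 250)) ^ A := pow_le_pow_left₀ h0 h1 A
    _ = Real.exp (A * (1 / (b : ℝ) ^ 250)) := by rw [← Real.exp_nat_mul]
    _ ≤ Real.exp 1 := by
        apply Real.exp_le_exp.2
        have hA' : (A : ℝ) ≤ (b : ℝ) ^ 242 := by exact_mod_cast hA
        calc (A : ℝ) * (1 / (b : ℝ) ^ 250) ≤ (b : ℝ) ^ 242 * (1 / (b : ℝ) ^ 250) := by gcongr
          _ = 1 / (b : ℝ) ^ 8 := by field_simp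
          _ ≤ 1 := by
              rw [div_le_one (by positivity)]
              exact one_le_pow₀ (by linarith)

theorem t7 (b : ℕ) (hb : 100 ≤ b) (r : ℝ) (hr0 : 0 ≤ r) (hr : r ≤ Real.exp (4 * b)) :
    r * (Real.exp 1 / ((b : ℝ) ^ 1250) ^ (b + 1)) ≤ 1 / (b : ℝ) ^ 5 := by
  have hb' : (100 : ℝ) ≤ b := by exact_mod_cast hb
  have hb0 : (0 : ℝ) < b := by linarith
  have h1 : Real.exp 1 ≤ b := by linarith [Real.exp_one_lt_d9]
  have h2 : r ≤ (b : ℝ) ^ (4 * b) := by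
    refine hr.trans ?_
    have := exp_mul_le_pow b 4 hb
    push_cast at this
    exact this
  rw [← pow_mul, mul_div_assoc', div_le_div_iff₀ (by positivity) (by positivity), one_mul]
  calc r * Real.exp 1 * (b : ℝ) ^ 5 ≤ (b : ℝ) ^ (4 * b) * b * (b : ℝ) ^ 5 := by gcongr
    _ = (b : ℝ) ^ (4 * b + 6) := by
        rw [mul_assoc, ← pow_succ', ← pow_add]
    _ ≤ (b : ℝ) ^ (1250 * (b + 1)) := pow_le_pow_right₀ (by linarith) (by omega)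

/-- second exponential moment of the number of near clusters minus one -/
theorem t8 (b : ℕ) (hb : 100 ≤ b) (A : ℕ) (hA : A ≤ b ^ 242) :
    (1 + (Real.exp 8 - 1) * (1 / (b : ℝ) ^ 1500)) ^ A - 1 ≤ 1 / (b : ℝ) ^ 1250 := by
  have hb' : (100 : ℝ) ≤ b := by exact_mod_cast hb
  have hb0 : (0 : ℝ) < b := by linarith
  have h1 : 1 + (Real.exp 8 - 1) * (1 / (b : ℝ) ^ 1500)
      ≤ Real.exp (Real.exp 8 * (1 / (b : ℝ) ^ 1500)) := by
    have h2 : 0 ≤ 1 / (b : ℝ) ^ 1500 := by positivity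
    have h3 := Real.add_one_le_exp (Real.exp 8 * (1 / (b : ℝ) ^ 1500))
    linarith
  have h0 : 0 ≤ 1 + (Real.exp 8 - 1) * (1 / (b : ℝ) ^ 1500) := by
    have h3 : (1 : ℝ) ≤ Real.exp 8 := Real.one_le_exp (by norm_num)
    have : 0 ≤ (Real.exp 8 - 1) * (1 / (b : ℝ) ^ 1500) := mul_nonneg (by linarith) (by positivity)
    linarith
  have he8 : Real.exp 8 ≤ (b : ℝ) ^ 4 := by
    have h3 : Real.exp 8 = (Real.exp 1) ^ 8 := by rw [← Real.exp_nat_mul]; norm_num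
    have h4 : Real.exp 1 ≤ 3 := by linarith [Real.exp_one_lt_d9]
    calc Real.exp 8 = (Real.exp 1) ^ 8 := h3
      _ ≤ 3 ^ 8 := pow_le_pow_left₀ (Real.exp_pos _).le h4 8
      _ ≤ 100 ^ 4 := by norm_num
      _ ≤ (b : ℝ) ^ 4 := pow_le_pow_left₀ (by norm_num) hb' 4
  set y : ℝ := A * (Real.exp 8 * (1 / (b : ℝ) ^ 1500)) with hy
  have hy0 : 0 ≤ y := by positivity
  have hy1 : y ≤ 1 / (b : ℝ) ^ 1254 := by
    have hA' : (A : ℝ) ≤ (b : ℝ) ^ 242 := by exact_mod_cast hA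
    calc y ≤ (b : ℝ) ^ 242 * ((b : ℝ) ^ 4 * (1 / (b : ℝ) ^ 1500)) := by rw [hy]; gcongr
      _ = 1 / (b : ℝ) ^ 1254 := by field_simp
  have hy2 : y ≤ 1 := by
    refine hy1.trans ?_
    rw [div_le_one (by positivity)]
    exact one_le_pow₀ (by linarith)
  have h5 : (1 + (Real.exp 8 - 1) * (1 / (b : ℝ) ^ 1500)) ^ A ≤ Real.exp y := by
    calc _ ≤ (Real.exp (Real.exp 8 * (1 / (b : ℝ) ^ 1500))) ^ A := pow_le_pow_left₀ h0 h1 A
      _ = Real.exp y := by rw [← Real.exp_nat_mul]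
  have h6 := Real.abs_exp_sub_one_sub_id_le (x := y) (by rw [abs_of_nonneg hy0]; exact hy2)
  have h7 := (abs_le.1 h6).2
  have h8 : y ^ 2 ≤ y := by nlinarith
  have h9 : 2 * (1 / (b : ℝ) ^ 1254) ≤ 1 / (b : ℝ) ^ 1250 := by
    have h10 : 2 * (1 / (b : ℝ) ^ 1254) = 2 / (b : ℝ) ^ 4 * (1 / (b : ℝ) ^ 1250) := by field_simp
    rw [h10]
    have h11 : 2 / (b : ℝ) ^ 4 ≤ 1 := by
      rw [div_le_one (by positivity)]
      calc (2 : ℝ) ≤ 100 ^ 4 := by norm_num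
        _ ≤ (b : ℝ) ^ 4 := pow_le_pow_left₀ (by norm_num) hb' 4
    calc 2 / (b : ℝ) ^ 4 * (1 / (b : ℝ) ^ 1250) ≤ 1 * (1 / (b : ℝ) ^ 1250) := by gcongr
      _ = _ := one_mul _
  linarith

/-- choice of an outcome -/
theorem t9 (b : ℕ) (hb : 100 ≤ b) :
    1 + 1 / (b : ℝ) ^ 600 ≤ (1 + 1 / (b : ℝ) ^ 2) * (1 - 1 / (b : ℝ) ^ 3) := by
  have hb' : (100 : ℝ) ≤ b := by exact_mod_cast hb
  have hb0 : (0 : ℝ) < b := by linarith
  have h1 : 1 / (b : ℝ) ^ 600 ≤ 1 / (b : ℝ) ^ 5 := by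
    apply one_div_le_one_div_of_le (by positivity)
    exact pow_le_pow_right₀ (by linarith) (by norm_num)
  have h2 : (1 + 1 / (b : ℝ) ^ 2) * (1 - 1 / (b : ℝ) ^ 3) - 1 - 1 / (b : ℝ) ^ 5
      = ((b : ℝ) ^ 3 - (b : ℝ) ^ 2 - 2) / (b : ℝ) ^ 5 := by
    field_simp
    ring
  have h3 : 0 ≤ ((b : ℝ) ^ 3 - (b : ℝ) ^ 2 - 2) / (b : ℝ) ^ 5 := by
    apply div_nonneg _ (by positivity)
    nlinarith [pow_pos hb0 2]
  linarith

end Pool.Agent.LibT57
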