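import Pool.Agent.LibT57.Num1

set_option autoImplicit false

/-! Mean of the exponential of a functional times the exponential of the number of near clusters. -/

open Finset

namespace Pool.Agent.LibT57

theorem pot_mean {Ω : Type*} [Fintype Ω] (b : ℕ) (hb : 100 ≤ b) (N p : ℝ)
    (hN : (Fintype.card Ω : ℝ) = N) (hp : 0 ≤ p) (big : Ω → Prop) [DecidablePred big] (X : Ω → ℝ) (m : Ω → ℕ)
    (A : ℕ) (hA : A ≤ b ^ 242)
    (h1 : ∑ ω, (if big ω then 0 else Real.exp (X ω)) ≤ N * Real.exp (324 * p))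
    (h2 : ∑ ω, (if big ω then 0 else Real.exp (2 * X ω)) ≤ N * Real.exp (1296 * p))
    (h3 : ∑ ω, (Real.exp 8) ^ m ω ≤ N * (1 + (Real.exp 8 - 1) * (1 / (b : ℝ) ^ 1500)) ^ A) :
    ∑ ω, (if big ω then 0 else Real.exp (X ω) * Real.exp (4 * m ω))
      ≤ N * ((1 + 1 / (b : ℝ) ^ 600) * Real.exp (1296 * p)) := by
  have hb' : (100 : ℝ) ≤ b := by exact_mod_cast hb
  have hb0 : (0 : ℝ) < b := by linarith
  have hN0 : 0 ≤ N := by rw [← hN]; exact Nat.cast_nonneg _
  set ε : ℝ := 1 / (b : ℝ) ^ 600 with hε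
  have hε0 : 0 < ε := by positivity
  have key : ∀ ω, (if big ω then 0 else Real.exp (X ω) * Real.exp (4 * m ω))
      ≤ (if big ω then 0 else Real.exp (X ω))
        + (ε * (if big ω then 0 else Real.exp (2 * X ω)) + ((Real.exp 8) ^ m ω - 1) / ε) / 2 := by
    intro ω
    have hm1 : (1 : ℝ) ≤ (Real.exp 8) ^ m ω := one_le_pow₀ (Real.one_le_exp (by norm_num))
    by_cases hbig : big ω
    · rw [if_pos hbig, if_pos hbig, if_pos hbig]
      have : 0 ≤ ((Real.exp 8) ^ m ω - 1) / ε := div_nonneg (by linarith) hε0.le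
      linarith
    · rw [if_neg hbig, if_neg hbig, if_neg hbig]
      set u : ℝ := Real.exp (X ω) with hu
      set v : ℝ := Real.exp (4 * m ω) with hv
      have hu0 : 0 < u := Real.exp_pos _
      have hv1 : 1 ≤ v := Real.one_le_exp (by positivity)
      have hu2 : Real.exp (2 * X ω) = u ^ 2 := by
        rw [hu, ← Real.exp_nat_mul]
        norm_num
      have hv2 : (Real.exp 8) ^ m ω = v ^ 2 := by
        rw [hv, ← Real.exp_nat_mul, ← Real.exp_nat_mul]
        congr 1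
        push_cast
        ring
      rw [hu2, hv2]
      have h4 : u * (v - 1) ≤ (ε * u ^ 2 + (v - 1) ^ 2 / ε) / 2 := by
        have h5 : 0 ≤ (ε * u - (v - 1)) ^ 2 / ε := div_nonneg (sq_nonneg _) hε0.le
        have h6 : (ε * u - (v - 1)) ^ 2 / ε
            = ε * u ^ 2 - 2 * (u * (v - 1)) + (v - 1) ^ 2 / ε := by
          field_simp
          ring
        rw [h6] at h5
        linarith
      have h7 : (v - 1) ^ 2 / ε ≤ (v ^ 2 - 1) / ε := by
        apply div_le_div_of_nonneg_right _ hε0.le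
        nlinarith
      nlinarith
  refine (Finset.sum_le_sum fun ω _ => key ω).trans ?_
  rw [Finset.sum_add_distrib, ← Finset.sum_div, Finset.sum_add_distrib, ← Finset.mul_sum,
    ← Finset.sum_div, Finset.sum_sub_distrib, Finset.sum_const, Finset.card_univ, nsmul_eq_mul,
    mul_one, hN]
  have h4 : ∑ ω, (Real.exp 8) ^ m ω - N ≤ N * (1 / (b : ℝ) ^ 1250) := by
    have h5 := t8 b hb A hA
    have h6 : N * ((1 + (Real.exp 8 - 1) * (1 / (b : ℝ) ^ 1500)) ^ A - 1)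
        ≤ N * (1 / (b : ℝ) ^ 1250) := mul_le_mul_of_nonneg_left h5 hN0
    linarith
  have h5 : (∑ ω, (Real.exp 8) ^ m ω - N) / ε ≤ N * (1 / (b : ℝ) ^ 650) := by
    have h6 : (∑ ω, (Real.exp 8) ^ m ω - N) / ε ≤ N * (1 / (b : ℝ) ^ 1250) / ε :=
      div_le_div_of_nonneg_right h4 hε0.le
    refine h6.trans (le_of_eq ?_)
    rw [hε]
    field_simp
  have h6 : 1 / (b : ℝ) ^ 650 ≤ ε := by
    rw [hε]
    apply one_div_le_one_div_of_le (by positivity)
    exact pow_le_pow_right₀ (by linarith) (by norm_num)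
  have h7 : Real.exp (324 * p) ≤ Real.exp (1296 * p) := Real.exp_le_exp.2 (by linarith)
  have h8 : 1 ≤ Real.exp (1296 * p) := Real.one_le_exp (by linarith)
  have h9 : N * (1 / (b : ℝ) ^ 650) ≤ N * ε := mul_le_mul_of_nonneg_left h6 hN0
  have h10 : N * Real.exp (324 * p) ≤ N * Real.exp (1296 * p) :=
    mul_le_mul_of_nonneg_left h7 hN0
  have h11 : ε * ∑ ω, (if big ω then 0 else Real.exp (2 * X ω)) ≤ ε * (N * Real.exp (1296 * p)) :=
    mul_le_mul_of_nonneg_left h2 hε0.le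
  have h12 : N * ε ≤ N * ε * Real.exp (1296 * p) := by
    have h13 : 0 ≤ N * ε := mul_nonneg hN0 hε0.le
    calc N * ε = N * ε * 1 := (mul_one _).symm
      _ ≤ N * ε * Real.exp (1296 * p) := mul_le_mul_of_nonneg_left h8 h13
  have h14 : N * ((1 + ε) * Real.exp (1296 * p))
      = N * Real.exp (1296 * p) + N * ε * Real.exp (1296 * p) := by ring
  have h15 : ε * (N * Real.exp (1296 * p)) = N * ε * Real.exp (1296 * p) := by ring
  rw [h14]
  rw [h15] at h11
  linarith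

/-- choice of a good outcome with a small potential -/
theorem choose_good {Ω : Type*} [Fintype Ω] [DecidableEq Ω] (b : ℕ) (hb : 100 ≤ b) (N : ℝ)
    (hN : (Fintype.card Ω : ℝ) = N) (hN0 : 0 < N) (Bad : Finset Ω)
    (hBad : (Bad.card : ℝ) ≤ N * (1 / (b : ℝ) ^ 3)) (F : Ω → ℝ) (hF : ∀ ω, 0 ≤ F ω) (M : ℝ)
    (hM : ∑ ω ∈ univ \ Bad, F ω ≤ N * ((1 + 1 / (b : ℝ) ^ 600) * M)) (hM0 : 0 ≤ M) :
    ∃ ω, ω ∉ Bad ∧ F ω ≤ (1 + 1 / (b : ℝ) ^ 2) * M := by
  have hb' : (100 : ℝ) ≤ b := by exact_mod_cast hb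
  have hb0 : (0 : ℝ) < b := by linarith
  have hcompl : ((univ \ Bad).card : ℝ) = N - Bad.card := by
    have h1 := Finset.card_sdiff_add_card_eq_card (Finset.subset_univ Bad)
    rw [Finset.card_univ] at h1
    have h2 : (((univ \ Bad).card + Bad.card : ℕ) : ℝ) = Fintype.card Ω := by exact_mod_cast h1
    push_cast at h2
    linarith
  have hlow : N * (1 - 1 / (b : ℝ) ^ 3) ≤ ((univ \ Bad).card : ℝ) := by
    rw [hcompl]
    linarith
  have hb3 : 1 / (b : ℝ) ^ 3 < 1 := by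
    rw [div_lt_one (by positivity)]
    exact one_lt_pow₀ (by linarith) (by norm_num)
  have hne : (univ \ Bad).Nonempty := by
    rw [← Finset.card_pos]
    have h1 : (0 : ℝ) < ((univ \ Bad).card : ℝ) :=
      lt_of_lt_of_le (mul_pos hN0 (by linarith)) hlow
    exact_mod_cast h1
  by_contra hcon
  push Not at hcon
  have hsum : ∑ ω ∈ univ \ Bad, (1 + 1 / (b : ℝ) ^ 2) * M < ∑ ω ∈ univ \ Bad, F ω :=
    Finset.sum_lt_sum_of_nonempty hne fun ω hω => hcon ω (Finset.mem_sdiff.1 hω).2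
  rw [Finset.sum_const, nsmul_eq_mul] at hsum
  have h1 := t9 b hb
  have h2 : N * (1 - 1 / (b : ℝ) ^ 3) * ((1 + 1 / (b : ℝ) ^ 2) * M)
      ≤ ((univ \ Bad).card : ℝ) * ((1 + 1 / (b : ℝ) ^ 2) * M) :=
    mul_le_mul_of_nonneg_right hlow (by positivity)
  have h3 : N * ((1 + 1 / (b : ℝ) ^ 600) * M)
      ≤ N * (((1 + 1 / (b : ℝ) ^ 2) * (1 - 1 / (b : ℝ) ^ 3)) * M) := by
    gcongr
  have h4 : N * (((1 + 1 / (b : ℝ) ^ 2) * (1 - 1 / (b : ℝ) ^ 3)) * M)
      = N * (1 - 1 / (b : ℝ) ^ 3) * ((1 + 1 / (b : ℝ) ^ 2) * M) := by ring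
  linarith

end Pool.Agent.LibT57
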