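import Pool.Agent.LibT57.EM
import Pool.Agent.LibT57.NearCount
import Pool.Agent.LibT57.PotMean
import Pool.Agent.LibDB82.Stage1

set_option autoImplicit false

/-! Stage 1 of the batch theorem. -/

open Finset Pool.Agent.LibLoc73 Pool.Agent.LibDB82
open Pool.Agent.LibLev64 (B4_mem)

namespace Pool.Agent.LibT57

variable {ι κ : Type*} [Fintype ι] [Fintype κ] [DecidableEq ι]

/-- the cluster graph: a common coarse row or columns with a large inner product -/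
def RelT (a : ι → κ → ℝ) (g : ℝ) (i i' : ι) : Prop :=
  RelG a g i i' ∨ g ≤ |∑ j, a i j * a i' j|

theorem RelT_symm (a : ι → κ → ℝ) (g : ℝ) (i i' : ι) (h : RelT a g i i') : RelT a g i' i := by
  rcases h with h | h
  · exact Or.inl (RelG_symm a g i i' h)
  · refine Or.inr ?_
    have h1 : ∑ j, a i' j * a i j = ∑ j, a i j * a i' j :=
      Finset.sum_congr rfl fun j _ => mul_comm _ _
    rw [h1]
    exact h

open Classical in
/-- variables on which the functional `v` is large -/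
noncomputable def nearT (a : ι → κ → ℝ) (g : ℝ) (v : κ → ℝ) : Finset ι :=
  univ.filter (fun i => g ≤ |∑ j, v j * a i j|)

theorem mem_nearT (a : ι → κ → ℝ) (g : ℝ) (v : κ → ℝ) (i : ι) :
    i ∈ nearT a g v ↔ g ≤ |∑ j, v j * a i j| := by
  classical
  unfold nearT
  rw [Finset.mem_filter]
  exact ⟨fun h => h.2, fun h => ⟨Finset.mem_univ _, h⟩⟩

open Classical in
theorem card_nearT (a : ι → κ → ℝ) (b : ℕ) (hb : 1 ≤ b)
    (hop : ∀ v : κ → ℝ, ∑ i, (∑ j, v j * a i j) ^ 2 ≤ b * ∑ j, v j ^ 2)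
    (v : κ → ℝ) (s : ℕ) (hv : ∑ j, v j ^ 2 ≤ (b : ℝ) ^ s) :
    (nearT a (1 / (b : ℝ) ^ 120) v).card ≤ b ^ (240 + (s + 1)) := by
  have h1 := cnt_nat (fun i => ∑ j, v j * a i j) b 120 (s + 1) hb (by
    refine (hop v).trans ?_
    calc (b : ℝ) * ∑ j, v j ^ 2 ≤ b * (b : ℝ) ^ s := by gcongr
      _ = (b : ℝ) ^ (s + 1) := by rw [pow_succ]; ring)
  have h2 : nearT a (1 / (b : ℝ) ^ 120) v
      = (univ : Finset ι).filter (fun i => 1 / (b : ℝ) ^ 120 ≤ |∑ j, v j * a i j|) := by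
    unfold nearT
    rfl
  rw [h2]
  exact h1

open Classical in
theorem card_nbT (a : ι → κ → ℝ) (b : ℕ) (hb : 2 ≤ b)
    (hcol : ∀ i, ∑ j, (a i j) ^ 2 ≤ 1) (hL : ∀ j, ∑ i, (a i j) ^ 2 ≤ (b : ℝ) ^ 1)
    (hop : ∀ v : κ → ℝ, ∑ i, (∑ j, v j * a i j) ^ 2 ≤ b * ∑ j, v j ^ 2) (i : ι) :
    (univ.filter (fun i' => RelT a (1 / (b : ℝ) ^ 120) i i')).card ≤ b ^ 482 := by
  have hb1 : 1 ≤ b := by omega
  have h1 := card_nbG a b 120 1 hb1 hcol hL i
  have h2 := card_nearT a b hb1 hop (a i) 0 (by rw [pow_zero]; exact hcol i)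
  have hsub : univ.filter (fun i' => RelT a (1 / (b : ℝ) ^ 120) i i')
      ⊆ nbG a (1 / (b : ℝ) ^ 120) i ∪ nearT a (1 / (b : ℝ) ^ 120) (a i) := by
    intro i' hi'
    rcases (Finset.mem_filter.1 hi').2 with h | h
    · exact Finset.mem_union_left _ (Finset.mem_filter.2 ⟨Finset.mem_univ _, h⟩)
    · exact Finset.mem_union_right _ ((mem_nearT _ _ _ _).2 h)
  calc _ ≤ (nbG a (1 / (b : ℝ) ^ 120) i ∪ nearT a (1 / (b : ℝ) ^ 120) (a i)).card :=
        Finset.card_le_card hsub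
    _ ≤ _ + _ := Finset.card_union_le _ _
    _ ≤ b ^ (4 * 120 + 1) + b ^ (240 + (0 + 1)) := Nat.add_le_add h1 h2
    _ ≤ b ^ 481 + b ^ 481 := by
        apply Nat.add_le_add_left
        exact Nat.pow_le_pow_right hb1 (by norm_num)
    _ = 2 * b ^ 481 := by ring
    _ ≤ b * b ^ 481 := Nat.mul_le_mul_right _ hb
    _ = b ^ 482 := by rw [← pow_succ']


/-- the initial live set -/
noncomputable def L0T (n : ℕ) (x0 : ι → ℝ) : Finset ι :=
  univ.filter (fun i => |x0 i| < 1 - 1 / (n : ℝ) ^ 2)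

/-- the walk of stage 1 -/
noncomputable def PT (a : ι → κ → ℝ) (n b : ℕ) (x0 : ι → ℝ) : LPar ι κ :=
  mkQ a (fun i => (Fintype.equivFin ι i : ℕ)) n b 1 x0 (L0T n x0)

open Classical in
/-- variables whose coarse budget is exceeded -/
noncomputable def TT (a : ι → κ → ℝ) (n b : ℕ) (x0 : ι → ℝ) (ω : Fin (tau n) → ι → Bool) :
    Finset ι :=
  univ.filter (fun i => CBud (PT a n b x0) (1 / (b : ℝ) ^ 20) (ext (tau n) ω) (tau n) i)

theorem mem_TT (a : ι → κ → ℝ) (n b : ℕ) (x0 : ι → ℝ) (ω : Fin (tau n) → ι → Bool) (i : ι) :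
    i ∈ TT a n b x0 ω ↔ CBud (PT a n b x0) (1 / (b : ℝ) ^ 20) (ext (tau n) ω) (tau n) i := by
  classical
  unfold TT
  rw [Finset.mem_filter]
  exact ⟨fun h => h.2, fun h => ⟨Finset.mem_univ _, h⟩⟩

/-- hypotheses of stage 1 -/
structure HT (a : ι → κ → ℝ) (b n : ℕ) (x0 : ι → ℝ) : Prop where
  hb : 100 ≤ b
  hn : b ^ 50 ≤ n
  hnb : (n : ℝ) ≤ Real.exp b
  hcard : Fintype.card ι ≤ n
  hcol : ∀ i, ∑ j, (a i j) ^ 2 ≤ 1
  hop : ∀ v : κ → ℝ, ∑ i, (∑ j, v j * a i j) ^ 2 ≤ b * ∑ j, v j ^ 2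
  hx0 : ∀ i, |x0 i| ≤ 1
  hok : (PT a n b x0).Ok n

/-- number of outcomes -/
noncomputable def NT (ι : Type*) [Fintype ι] (n : ℕ) : ℝ := (2 ^ Fintype.card ι) ^ (tau n)

theorem NT_pos (n : ℕ) : 0 < NT ι n := by
  unfold NT
  positivity

theorem NT_card (n : ℕ) : (Fintype.card (Fin (tau n) → ι → Bool) : ℝ) = NT ι n := by
  simp [NT]

omit [DecidableEq ι] in
theorem HT_L (a : ι → κ → ℝ) (b : ℕ)
    (hop : ∀ v : κ → ℝ, ∑ i, (∑ j, v j * a i j) ^ 2 ≤ b * ∑ j, v j ^ 2) (j : κ) :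
    ∑ i, (a i j) ^ 2 ≤ (b : ℝ) ^ 1 := by
  classical
  have h1 := hop (Pi.single j 1)
  have h2 : ∀ i, ∑ j', (Pi.single j (1 : ℝ) : κ → ℝ) j' * a i j' = a i j := by
    intro i
    rw [Finset.sum_eq_single j]
    · rw [Pi.single_eq_same, one_mul]
    · intro j' _ hj'
      rw [Pi.single_eq_of_ne hj', zero_mul]
    · intro h
      exact absurd (Finset.mem_univ _) h
  have h3 : ∑ j', ((Pi.single j (1 : ℝ) : κ → ℝ) j') ^ 2 = 1 := by
    rw [Finset.sum_eq_single j]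
    · rw [Pi.single_eq_same, one_pow]
    · intro j' _ hj'
      rw [Pi.single_eq_of_ne hj']
      norm_num
    · intro h
      exact absurd (Finset.mem_univ _) h
  simp only [h2, h3, mul_one] at h1
  rw [pow_one]
  exact h1

open Classical in
/-- joint bound for the random set -/
theorem TT_joint (a : ι → κ → ℝ) (b n : ℕ) (x0 : ι → ℝ) (h : HT a b n x0) (I : Finset ι)
    (hI : ∀ i ∈ I, ∀ i' ∈ I, i ≠ i' → ¬ RelG a (1 / (b : ℝ) ^ 20) i i') :
    (((univ : Finset (Fin (tau n) → ι → Bool)).filter (fun ω => I ⊆ TT a n b x0 ω)).card : ℝ)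
      ≤ NT ι n * (1 / (b : ℝ) ^ 1500) ^ I.card := by
  have hb4 : 4 ≤ b := le_trans (by norm_num) h.hb
  obtain ⟨-, -, p6⟩ := single_probs2 a (fun i => (Fintype.equivFin ι i : ℕ)) n b hb4 h.hn 1
    one_pos x0 (L0T n x0) h.hok
  refine le_trans (Nat.cast_le.2 (Finset.card_le_card ?_)) (p6 I ?_)
  · intro ω hω
    have h1 := B4_mem.1 hω
    refine B4_mem.2 ?_
    intro i hi
    exact (mem_TT a n b x0 ω i).1 (h1 hi)
  · intro i hi i' hi' hne j hj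
    exact hI i hi i' hi' hne ⟨j, hj.1, hj.2⟩

/-- an event of small probability -/
def Ev {Ω : Type*} [Fintype Ω] (p : Ω → Prop) (C : ℝ) : Prop :=
  ∃ S : Finset Ω, (∀ ω, p ω → ω ∈ S) ∧ (S.card : ℝ) ≤ C

theorem Ev_or {Ω : Type*} [Fintype Ω] (p p' : Ω → Prop) (C C' : ℝ) (h : Ev p C) (h' : Ev p' C') :
    Ev (fun ω => p ω ∨ p' ω) (C + C') := by
  classical
  obtain ⟨S, h1, h2⟩ := h
  obtain ⟨S', h1', h2'⟩ := h'
  refine ⟨S ∪ S', ?_, ?_⟩
  · rintro ω (hp | hp)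
    · exact Finset.mem_union_left _ (h1 ω hp)
    · exact Finset.mem_union_right _ (h1' ω hp)
  · have h3 : ((S ∪ S').card : ℝ) ≤ (S.card : ℝ) + (S'.card : ℝ) := by
      exact_mod_cast Finset.card_union_le S S'
    linarith

theorem Ev_of {Ω : Type*} [Fintype Ω] (p : Ω → Prop) [DecidablePred p] (C : ℝ)
    (h : (((univ : Finset Ω).filter p).card : ℝ) ≤ C) : Ev p C :=
  ⟨_, fun _ hp => Finset.mem_filter.2 ⟨Finset.mem_univ _, hp⟩, h⟩

theorem Ev_mono {Ω : Type*} [Fintype Ω] (p p' : Ω → Prop) (C C' : ℝ) (h : Ev p C)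
    (hp : ∀ ω, p' ω → p ω) (h' : C ≤ C') : Ev p' C' := by
  obtain ⟨S, h1, h2⟩ := h
  exact ⟨S, fun ω hω => h1 ω (hp ω hω), h2.trans h'⟩

theorem Ev_union {Ω β : Type*} [Fintype Ω] (A : Finset β) (p : β → Ω → Prop) (C : ℝ)
    (h : ∀ z ∈ A, Ev (p z) C) : Ev (fun ω => ∃ z ∈ A, p z ω) (A.card * C) := by
  classical
  induction A using Finset.induction_on with
  | empty => exact ⟨∅, by simp, by simp⟩
  | insert z A hz ih =>
    have h1 := Ev_or _ _ _ _ (h z (Finset.mem_insert_self _ _))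
      (ih (fun y hy => h y (Finset.mem_insert_of_mem hy)))
    refine Ev_mono _ _ _ _ h1 ?_ (le_of_eq ?_)
    · rintro ω ⟨y, hy, hp⟩
      rcases Finset.mem_insert.1 hy with rfl | hy
      · exact Or.inl hp
      · exact Or.inr ⟨y, hy, hp⟩
    · rw [Finset.card_insert_of_notMem hz]
      push_cast
      ring

/-- the basic bad events of the walk -/
theorem ev_basic (a : ι → κ → ℝ) (b n : ℕ) (x0 : ι → ℝ) (h : HT a b n x0)
    (hrows : Fintype.card κ ≤ n ^ 2) :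
    Ev (fun ω : Fin (tau n) → ι → Bool =>
      (∃ z, (PT a n b x0).toPar.Conf (ext (tau n) ω) z) ∨
      (∃ z, (PT a n b x0).IsBig (ext (tau n) ω) (tau n) z) ∨
      (∃ j, (PT a n b x0).Up (ext (tau n) ω) (tau n) j (b + 60)) ∨
      (∃ z, FBud (PT a n b x0) (1 / (b : ℝ) ^ 20) (ext (tau n) ω) (tau n) z))
      (4 * (NT ι n * (1 / (b : ℝ) ^ 5))) := by
  classical
  have hb4 : 4 ≤ b := le_trans (by norm_num) h.hb
  have hb' : (100 : ℝ) ≤ b := by exact_mod_cast h.hb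
  have hb0 : (0 : ℝ) < b := by linarith
  have hn1 : 1 ≤ n := le_trans (Nat.one_le_pow _ _ (by omega)) h.hn
  have hn0 : (0 : ℝ) < n := by exact_mod_cast hn1
  have hN0 := NT_pos (ι := ι) n
  have hcn : ∀ i : ι, (Fintype.equivFin ι i : ℕ) < n := fun i =>
    lt_of_lt_of_le (Fintype.equivFin ι i).2 h.hcard
  obtain ⟨p1, p2, p3⟩ := single_probs1 a (fun i => (Fintype.equivFin ι i : ℕ)) n b hb4 h.hn 1
    one_pos x0 (L0T n x0) h.hok hcn
  obtain ⟨p4, -, -⟩ := single_probs2 a (fun i => (Fintype.equivFin ι i : ℕ)) n b hb4 h.hn 1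
    one_pos x0 (L0T n x0) h.hok
  have hιn : ((univ : Finset ι).card : ℝ) ≤ n := by
    rw [Finset.card_univ]
    exact_mod_cast h.hcard
  have hκn : ((univ : Finset κ).card : ℝ) ≤ (n : ℝ) ^ 3 := by
    rw [Finset.card_univ]
    calc (Fintype.card κ : ℝ) ≤ (n : ℝ) ^ 2 := by exact_mod_cast hrows
      _ ≤ (n : ℝ) ^ 3 := pow_le_pow_right₀ (by exact_mod_cast hn1) (by norm_num)
  have q1 : ((univ : Finset ι).card : ℝ) * (NT ι n * (1 / (n : ℝ) ^ 100))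
      ≤ NT ι n * (1 / (b : ℝ) ^ 5) := by
    calc _ ≤ (n : ℝ) * (NT ι n * (1 / (n : ℝ) ^ 100)) :=
          mul_le_mul_of_nonneg_right hιn (by positivity)
      _ = NT ι n * ((n : ℝ) * (1 / (n : ℝ) ^ 100)) := by ring
      _ ≤ NT ι n * (1 / (b : ℝ) ^ 5) := mul_le_mul_of_nonneg_left (t1 b n h.hb h.hn) hN0.le
  have q3 : ((univ : Finset κ).card : ℝ) * (NT ι n * Real.exp (-(2000 * b)))
      ≤ NT ι n * (1 / (b : ℝ) ^ 5) := by
    calc _ = NT ι n * (((univ : Finset κ).card : ℝ) * Real.exp (-(2000 * b))) := by ring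
      _ ≤ NT ι n * (1 / (b : ℝ) ^ 5) :=
        mul_le_mul_of_nonneg_left (t3 b n h.hb h.hnb _ (Nat.cast_nonneg _) hκn) hN0.le
  have q4 : ((univ : Finset ι).card : ℝ) * (NT ι n * Real.exp (-(3 * b)))
      ≤ NT ι n * (1 / (b : ℝ) ^ 5) := by
    calc _ ≤ (n : ℝ) * (NT ι n * Real.exp (-(3 * b))) :=
          mul_le_mul_of_nonneg_right hιn (by positivity)
      _ = NT ι n * ((n : ℝ) * Real.exp (-(3 * b))) := by ring
      _ ≤ NT ι n * (1 / (b : ℝ) ^ 5) := mul_le_mul_of_nonneg_left (t4 b n h.hb h.hnb) hN0.le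
  have e1 : Ev (fun ω : Fin (tau n) → ι → Bool =>
      ∃ z ∈ (univ : Finset ι), (PT a n b x0).toPar.Conf (ext (tau n) ω) z)
      (NT ι n * (1 / (b : ℝ) ^ 5)) := Ev_mono _ _ _ _ (Ev_union (univ : Finset ι)
    (fun z (ω : Fin (tau n) → ι → Bool) => (PT a n b x0).toPar.Conf (ext (tau n) ω) z) _
      (fun z _ => Ev_of _ _ (p1 z))) (fun _ hh => hh) q1
  have e2 : Ev (fun ω : Fin (tau n) → ι → Bool =>
      ∃ z ∈ (univ : Finset ι), (PT a n b x0).IsBig (ext (tau n) ω) (tau n) z)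
      (NT ι n * (1 / (b : ℝ) ^ 5)) := Ev_mono _ _ _ _ (Ev_union (univ : Finset ι)
    (fun z (ω : Fin (tau n) → ι → Bool) => (PT a n b x0).IsBig (ext (tau n) ω) (tau n) z) _
      (fun z _ => Ev_of _ _ (p2 z))) (fun _ hh => hh) q1
  have e3 : Ev (fun ω : Fin (tau n) → ι → Bool =>
      ∃ j ∈ (univ : Finset κ), (PT a n b x0).Up (ext (tau n) ω) (tau n) j (b + 60))
      (NT ι n * (1 / (b : ℝ) ^ 5)) := Ev_mono _ _ _ _ (Ev_union (univ : Finset κ)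
    (fun j (ω : Fin (tau n) → ι → Bool) => (PT a n b x0).Up (ext (tau n) ω) (tau n) j (b + 60)) _
      (fun j _ => Ev_of _ _ (p3 j))) (fun _ hh => hh) q3
  have e4 : Ev (fun ω : Fin (tau n) → ι → Bool =>
      ∃ z ∈ (univ : Finset ι), FBud (PT a n b x0) (1 / (b : ℝ) ^ 20) (ext (tau n) ω) (tau n) z)
      (NT ι n * (1 / (b : ℝ) ^ 5)) := Ev_mono _ _ _ _ (Ev_union (univ : Finset ι)
    (fun z (ω : Fin (tau n) → ι → Bool) =>
      FBud (PT a n b x0) (1 / (b : ℝ) ^ 20) (ext (tau n) ω) (tau n) z) _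
      (fun z _ => Ev_of _ _ (p4 z))) (fun _ hh => hh) q4
  obtain ⟨S, h1, h2⟩ := Ev_or _ _ _ _ e1 (Ev_or _ _ _ _ e2 (Ev_or _ _ _ _ e3 e4))
  refine ⟨S, fun ω hω => h1 ω ?_, h2.trans (le_of_eq (by ring))⟩
  rcases hω with ⟨z, hz⟩ | ⟨z, hz⟩ | ⟨z, hz⟩ | ⟨z, hz⟩
  · exact Or.inl ⟨z, Finset.mem_univ _, hz⟩
  · exact Or.inr (Or.inl ⟨z, Finset.mem_univ _, hz⟩)
  · exact Or.inr (Or.inr (Or.inl ⟨z, Finset.mem_univ _, hz⟩))
  · exact Or.inr (Or.inr (Or.inr ⟨z, Finset.mem_univ _, hz⟩))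

open Classical in
/-- conflict sets -/
noncomputable def cfT (a : ι → κ → ℝ) (b : ℕ) (i : ι) : Finset ι :=
  insert i (nbG a (1 / (b : ℝ) ^ 20) i)

theorem cfT_self (a : ι → κ → ℝ) (b : ℕ) (i : ι) : i ∈ cfT a b i := Finset.mem_insert_self _ _

theorem mem_cfT (a : ι → κ → ℝ) (b : ℕ) (i i' : ι) :
    i' ∈ cfT a b i ↔ i' = i ∨ RelG a (1 / (b : ℝ) ^ 20) i i' := by
  classical
  unfold cfT nbG
  rw [Finset.mem_insert, Finset.mem_filter]
  exact ⟨fun h => h.imp id (fun h => h.2), fun h => h.imp id (fun h => ⟨Finset.mem_univ _, h⟩)⟩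

theorem cfT_symm (a : ι → κ → ℝ) (b : ℕ) (i i' : ι) (h : i' ∈ cfT a b i) : i ∈ cfT a b i' := by
  rcases (mem_cfT a b i i').1 h with h | h
  · exact (mem_cfT a b i' i).2 (Or.inl h.symm)
  · exact (mem_cfT a b i' i).2 (Or.inr (RelG_symm a _ _ _ h))

theorem cfT_card (a : ι → κ → ℝ) (b : ℕ) (hb : 2 ≤ b)
    (hcol : ∀ i, ∑ j, (a i j) ^ 2 ≤ 1) (hL : ∀ j, ∑ i, (a i j) ^ 2 ≤ (b : ℝ) ^ 1) (i : ι) :
    (cfT a b i).card ≤ b ^ 82 := by
  classical
  have h1 := card_nbG a b 20 1 (by omega) hcol hL i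
  calc (cfT a b i).card ≤ (nbG a (1 / (b : ℝ) ^ 20) i).card + 1 := Finset.card_insert_le _ _
    _ ≤ b ^ (4 * 20 + 1) + 1 := Nat.add_le_add_right h1 1
    _ ≤ b ^ (4 * 20 + 1) + b ^ (4 * 20 + 1) := Nat.add_le_add_left (Nat.one_le_pow _ _ (by omega)) _
    _ = 2 * b ^ (4 * 20 + 1) := by ring
    _ ≤ b * b ^ (4 * 20 + 1) := Nat.mul_le_mul_right _ (by omega)
    _ = b ^ 82 := by rw [← pow_succ']

/-- large clusters -/
theorem ev_cluster (a : ι → κ → ℝ) (b n : ℕ) (x0 : ι → ℝ) (h : HT a b n x0) :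
    Ev (fun ω : Fin (tau n) → ι → Bool => ∃ Q : Finset ι, Q ⊆ TT a n b x0 ω ∧
      b * b ^ 82 < Q.card ∧ ∃ i0 ∈ Q, ∀ i ∈ Q, Relation.ReflTransGen
          (fun i i' => i ∈ Q ∧ i' ∈ Q ∧ RelT a (1 / (b : ℝ) ^ 120) i i') i0 i)
      (NT ι n * (1 / (b : ℝ) ^ 5)) := by
  classical
  have hb2 : 2 ≤ b := le_trans (by norm_num) h.hb
  have hN0 := NT_pos (ι := ι) n
  have hL' := HT_L a b h.hop
  set nbT : ι → Finset ι := fun i => univ.filter (fun i' => RelT a (1 / (b : ℝ) ^ 120) i i')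
    with hnbT
  set nb : ι → Finset ι := fun i => (cfT a b i).biUnion
    (fun i' => (nbT i').biUnion (cfT a b)) with hnb'
  have hΔ : ∀ i, (nb i).card ≤ b ^ 646 := by
    intro i
    have h2 : ∀ i', ((nbT i').biUnion (cfT a b)).card ≤ b ^ 482 * b ^ 82 := by
      intro i'
      refine (Finset.card_biUnion_le_card_mul _ _ (b ^ 82)
        (fun z _ => cfT_card a b hb2 h.hcol hL' z)).trans ?_
      exact Nat.mul_le_mul_right _ (card_nbT a b hb2 h.hcol hL' h.hop i')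
    refine (Finset.card_biUnion_le_card_mul _ _ _ (fun z _ => h2 z)).trans ?_
    calc (cfT a b i).card * (b ^ 482 * b ^ 82)
        ≤ b ^ 82 * (b ^ 482 * b ^ 82) := Nat.mul_le_mul_right _ (cfT_card a b hb2 h.hcol hL' i)
      _ = b ^ 646 := by rw [← pow_add, ← pow_add]
  have e5 := cluster_count (TT a n b x0) (NT ι n) (1 / (b : ℝ) ^ 1500) hN0.le (by positivity)
    (cfT a b) nb (RelT a (1 / (b : ℝ) ^ 120)) (b ^ 82) (b ^ 646) b
    (cfT_self a b) (cfT_symm a b) (cfT_card a b hb2 h.hcol hL') hΔ (RelT_symm a _) (by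
      intro i1 i2 i3 i4 h12 h23 h34
      exact Finset.mem_biUnion.2 ⟨i2, h12, Finset.mem_biUnion.2
        ⟨i3, Finset.mem_filter.2 ⟨Finset.mem_univ _, h23⟩, h34⟩⟩) (by
      intro I hI
      refine TT_joint a b n x0 h I ?_
      intro i hi i' hi' hne hR
      exact hI i hi i' hi' hne ((mem_cfT a b i i').2 (Or.inr hR)))
  refine Ev_mono _ _ _ _ (Ev_of _ _ e5) (fun _ hh => hh) ?_
  have h1 := t5 b n h.hb h.hnb
  have h2 : (Fintype.card ι : ℝ) ≤ n := by exact_mod_cast h.hcard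
  have h3 : (Fintype.card ι : ℝ) * (((b ^ 646 : ℕ) : ℝ) ^ (2 * b) * (1 / (b : ℝ) ^ 1500) ^ (b + 1))
      ≤ (n : ℝ) * (((b ^ 646 : ℕ) : ℝ) ^ (2 * b) * (1 / (b : ℝ) ^ 1500) ^ (b + 1)) :=
    mul_le_mul_of_nonneg_right h2 (by positivity)
  exact mul_le_mul_of_nonneg_left (h3.trans h1) hN0.le

/-- fine mass of one functional -/
theorem mass_one (a : ι → κ → ℝ) (b n : ℕ) (x0 : ι → ℝ) (h : HT a b n x0) (v : κ → ℝ)
    (hv : ∑ j, v j ^ 2 ≤ b) :
    Ev (fun ω : Fin (tau n) → ι → Bool =>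
      1 / (b : ℝ) ^ 90 ≤ ∑ i ∈ TT a n b x0 ω, (if |∑ j, v j * a i j| < 1 / (b : ℝ) ^ 120
        then (∑ j, v j * a i j) ^ 2 else 0))
      (NT ι n * (((b ^ 82 : ℕ) : ℝ) *
          Real.exp (-((b : ℝ) ^ 240 * (1 / (b : ℝ) ^ 90) / ((b ^ 82 : ℕ) : ℝ))
            + 2 * (b : ℝ) ^ 240 * (1 / (b : ℝ) ^ 1500) * (b : ℝ) ^ 2))) := by
  classical
  have hb2 : 2 ≤ b := le_trans (by norm_num) h.hb
  have hb' : (100 : ℝ) ≤ b := by exact_mod_cast h.hb
  have hb0 : (0 : ℝ) < b := by linarith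
  have hN0 := NT_pos (ι := ι) n
  have hL' := HT_L a b h.hop
  refine Ev_of _ _ (mass_count (TT a n b x0) (NT ι n) (1 / (b : ℝ) ^ 1500) hN0.le (by positivity)
    (cfT a b) (b ^ 82) (by positivity) (cfT_self a b) (cfT_symm a b)
    (cfT_card a b hb2 h.hcol hL') (by
      intro I hI
      refine TT_joint a b n x0 h I ?_
      intro i hi i' hi' hne hR
      exact hI i hi i' hi' hne ((mem_cfT a b i i').2 (Or.inr hR)))
    (fun i => if |∑ j, v j * a i j| < 1 / (b : ℝ) ^ 120 then (∑ j, v j * a i j) ^ 2 else 0)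
    (fun i => by positivity)
    ((b : ℝ) ^ 240) ((b : ℝ) ^ 2) (1 / (b : ℝ) ^ 90) (by positivity) ?_ ?_)
  · intro i
    split_ifs with hlt
    · have h1 : (∑ j, v j * a i j) ^ 2 ≤ (1 / (b : ℝ) ^ 120) ^ 2 := by
        rw [← sq_abs (∑ j, v j * a i j)]
        exact pow_le_pow_left₀ (abs_nonneg _) hlt.le 2
      calc (b : ℝ) ^ 240 * (∑ j, v j * a i j) ^ 2 ≤ (b : ℝ) ^ 240 * (1 / (b : ℝ) ^ 120) ^ 2 :=
            mul_le_mul_of_nonneg_left h1 (by positivity)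
        _ = 1 := by
          rw [div_pow, one_pow, ← pow_mul, mul_one_div, div_self (by positivity)]
    · rw [mul_zero]; exact zero_le_one
  · have h2 : ∑ i, (∑ j, v j * a i j) ^ 2 ≤ (b : ℝ) ^ 2 := by
      calc ∑ i, (∑ j, v j * a i j) ^ 2 ≤ b * ∑ j, v j ^ 2 := h.hop v
        _ ≤ b * b := mul_le_mul_of_nonneg_left hv hb0.le
        _ = (b : ℝ) ^ 2 := by ring
    refine le_trans (Finset.sum_le_sum fun i _ => ?_) h2
    split_ifs
    · exact le_rfl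
    · positivity

/-- fine masses of a family of functionals -/
theorem ev_mass (a : ι → κ → ℝ) (b n : ℕ) (x0 : ι → ℝ) (h : HT a b n x0)
    {K : Type*} [Fintype K] (hK : (Fintype.card K : ℝ) ≤ Real.exp (4 * b))
    (ψ : K → κ → ℝ) (hψ : ∀ k, ∑ j, ψ k j ^ 2 ≤ b) :
    Ev (fun ω : Fin (tau n) → ι → Bool => ∃ k, 1 / (b : ℝ) ^ 90 ≤
      ∑ i ∈ TT a n b x0 ω, (if |∑ j, ψ k j * a i j| < 1 / (b : ℝ) ^ 120
        then (∑ j, ψ k j * a i j) ^ 2 else 0))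
      (NT ι n * (1 / (b : ℝ) ^ 5)) := by
  classical
  have hN0 := NT_pos (ι := ι) n
  have e6 := Ev_union (univ : Finset K) (fun k (ω : Fin (tau n) → ι → Bool) =>
    1 / (b : ℝ) ^ 90 ≤ ∑ i ∈ TT a n b x0 ω, (if |∑ j, ψ k j * a i j| < 1 / (b : ℝ) ^ 120
        then (∑ j, ψ k j * a i j) ^ 2 else 0)) _ (fun k _ => mass_one a b n x0 h (ψ k) (hψ k))
  have h1 := t6 b h.hb ((univ : Finset K).card : ℝ) (Nat.cast_nonneg _)
    (by rw [Finset.card_univ]; exact hK)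
  refine Ev_mono _ _ _ _ e6 (fun ω hω => ?_) ?_
  · obtain ⟨k, hk⟩ := hω
    exact ⟨k, Finset.mem_univ _, hk⟩
  · calc _ = NT ι n * (((univ : Finset K).card : ℝ) * (((b ^ 82 : ℕ) : ℝ) *
          Real.exp (-((b : ℝ) ^ 240 * (1 / (b : ℝ) ^ 90) / ((b ^ 82 : ℕ) : ℝ))
            + 2 * (b : ℝ) ^ 240 * (1 / (b : ℝ) ^ 1500) * (b : ℝ) ^ 2))) := by ring
      _ ≤ NT ι n * (1 / (b : ℝ) ^ 5) := mul_le_mul_of_nonneg_left h1 hN0.le

/-- independence-like bound for sets without edges of the cluster graph -/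
theorem TT_jointR (a : ι → κ → ℝ) (b n : ℕ) (x0 : ι → ℝ) (h : HT a b n x0) (I : Finset ι)
    (hI : ∀ i ∈ I, ∀ i' ∈ I, i ≠ i' → ¬ RelT a (1 / (b : ℝ) ^ 120) i i') :
    (((univ : Finset (Fin (tau n) → ι → Bool)).filter (fun ω => I ⊆ TT a n b x0 ω)).card : ℝ)
      ≤ NT ι n * (1 / (b : ℝ) ^ 1500) ^ I.card := by
  have hb' : (100 : ℝ) ≤ b := by exact_mod_cast h.hb
  have hb0 : (0 : ℝ) < b := by linarith
  have hgle : 1 / (b : ℝ) ^ 120 ≤ 1 / (b : ℝ) ^ 20 := by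
    apply one_div_le_one_div_of_le (by positivity)
    exact pow_le_pow_right₀ (by linarith) (by norm_num)
  refine TT_joint a b n x0 h I ?_
  intro i hi i' hi' hne hR
  obtain ⟨j, hj1, hj2⟩ := hR
  exact hI i hi i' hi' hne (Or.inl ⟨j, hgle.trans hj1, hgle.trans hj2⟩)

/-- many near clusters -/
theorem ev_ncl (a : ι → κ → ℝ) (b n : ℕ) (x0 : ι → ℝ) (h : HT a b n x0)
    {K : Type*} [Fintype K] (hK : (Fintype.card K : ℝ) ≤ Real.exp (4 * b))
    (A : K → Finset ι) (hA : ∀ k, (A k).card ≤ b ^ 242) :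
    Ev (fun ω : Fin (tau n) → ι → Bool => ∃ k,
      b + 1 ≤ ncl (RelT a (1 / (b : ℝ) ^ 120)) (A k) (TT a n b x0 ω))
      (NT ι n * (1 / (b : ℝ) ^ 5)) := by
  classical
  have hb' : (100 : ℝ) ≤ b := by exact_mod_cast h.hb
  have hb0 : (0 : ℝ) < b := by linarith
  have hN0 := NT_pos (ι := ι) n
  have hb1250 : (1 : ℝ) ≤ (b : ℝ) ^ 1250 := one_le_pow₀ (by linarith)
  have p8 : ∀ k ∈ (univ : Finset K), Ev (fun ω : Fin (tau n) → ι → Bool =>
      b + 1 ≤ ncl (RelT a (1 / (b : ℝ) ^ 120)) (A k) (TT a n b x0 ω))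
        (NT ι n * (Real.exp 1 / ((b : ℝ) ^ 1250) ^ (b + 1))) := by
    intro k _
    refine Ev_of _ _ ?_
    have h1 := mean_ncl (RelT a (1 / (b : ℝ) ^ 120)) (RelT_symm a _) (A k) (TT a n b x0) (NT ι n)
      (1 / (b : ℝ) ^ 1500) (by positivity) (fun I hI => TT_jointR a b n x0 h I hI)
      ((b : ℝ) ^ 1250) hb1250
    have h2 := h1.trans (mul_le_mul_of_nonneg_left (t7a b h.hb (A k).card (hA k)) hN0.le)
    have h3 : (((univ : Finset (Fin (tau n) → ι → Bool)).filter (fun ω =>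
        b + 1 ≤ ncl (RelT a (1 / (b : ℝ) ^ 120)) (A k) (TT a n b x0 ω))).card : ℝ) *
          ((b : ℝ) ^ 1250) ^ (b + 1)
        ≤ ∑ ω, ((b : ℝ) ^ 1250) ^ ncl (RelT a (1 / (b : ℝ) ^ 120)) (A k) (TT a n b x0 ω) := by
      rw [← nsmul_eq_mul, ← Finset.sum_const]
      refine (Finset.sum_le_sum fun ω hω => ?_).trans
        (Finset.sum_le_sum_of_subset_of_nonneg (Finset.filter_subset _ _)
          (fun ω _ _ => by positivity))
      exact pow_le_pow_right₀ hb1250 (Finset.mem_filter.1 hω).2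
    rw [mul_div_assoc', le_div_iff₀ (by positivity)]
    exact h3.trans h2
  have e7 := Ev_union (univ : Finset K) _ _ p8
  have h1 := t7 b h.hb ((univ : Finset K).card : ℝ) (Nat.cast_nonneg _)
    (by rw [Finset.card_univ]; exact hK)
  refine Ev_mono _ _ _ _ e7 (fun ω hω => ?_) ?_
  · obtain ⟨k, hk⟩ := hω
    exact ⟨k, Finset.mem_univ _, hk⟩
  · calc _ = NT ι n * (((univ : Finset K).card : ℝ) *
          (Real.exp 1 / ((b : ℝ) ^ 1250) ^ (b + 1))) := by ring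
      _ ≤ NT ι n * (1 / (b : ℝ) ^ 5) := mul_le_mul_of_nonneg_left h1 hN0.le

open Classical in
/-- mean of the potential of one functional -/
theorem pot_one (a : ι → κ → ℝ) (b n : ℕ) (x0 : ι → ℝ) (h : HT a b n x0) (v : κ → ℝ)
    (A : Finset ι) (hA : A.card ≤ b ^ 242) :
    ∑ ω : Fin (tau n) → ι → Bool, (if ∃ z, (PT a n b x0).IsBig (ext (tau n) ω) (tau n) z then 0
      else Real.exp (∑ j, v j * ((PT a n b x0).toPar.row
          ((PT a n b x0).run (ext (tau n) ω) (tau n)).x j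
            - (PT a n b x0).toPar.row (PT a n b x0).x0 j)) *
        Real.exp (4 * ncl (RelT a (1 / (b : ℝ) ^ 120)) A (TT a n b x0 ω)))
      ≤ NT ι n * ((1 + 1 / (b : ℝ) ^ 600) * Real.exp (1296 * ∑ j, v j ^ 2)) := by
  have hb4 : 4 ≤ b := le_trans (by norm_num) h.hb
  have hr := mkQ_hr a (fun i => (Fintype.equivFin ι i : ℕ)) n b hb4 h.hn 1 x0 (L0T n x0)
  have h1 := em_real (PT a n b x0) n h.hok (tau n) hr v
  have h2 := em_real (PT a n b x0) n h.hok (tau n) hr (fun j => 2 * v j)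
  have h3 := mean_ncl (RelT a (1 / (b : ℝ) ^ 120)) (RelT_symm a _) A (TT a n b x0) (NT ι n)
      (1 / (b : ℝ) ^ 1500) (by positivity) (fun I hI => TT_jointR a b n x0 h I hI)
      (Real.exp 8) (Real.one_le_exp (by norm_num))
  exact pot_mean b h.hb (NT ι n) (∑ j, v j ^ 2) (NT_card n)
      (Finset.sum_nonneg fun _ _ => sq_nonneg _)
      (fun ω => ∃ z, (PT a n b x0).IsBig (ext (tau n) ω) (tau n) z)
      (fun ω => ∑ j, v j * ((PT a n b x0).toPar.row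
          ((PT a n b x0).run (ext (tau n) ω) (tau n)).x j
            - (PT a n b x0).toPar.row (PT a n b x0).x0 j))
      (fun ω => ncl (RelT a (1 / (b : ℝ) ^ 120)) A (TT a n b x0 ω)) A.card hA h1 (by
        refine le_trans (le_of_eq ?_) (h2.trans (le_of_eq ?_))
        · refine Finset.sum_congr rfl fun ω _ => ?_
          congr 2
          rw [Finset.mul_sum]
          refine Finset.sum_congr rfl fun j _ => ?_
          ring
        · unfold NT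
          congr 2
          rw [Finset.mul_sum, Finset.mul_sum]
          refine Finset.sum_congr rfl fun j _ => ?_
          ring) h3

/-- outcomes outside the basic bad events decide all the variables outside `TT` -/
theorem decided (a : ι → κ → ℝ) (b n : ℕ) (x0 : ι → ℝ) (h : HT a b n x0)
    (ω : Fin (tau n) → ι → Bool)
    (w1 : ¬ ∃ z, (PT a n b x0).toPar.Conf (ext (tau n) ω) z)
    (w2 : ¬ ∃ z, (PT a n b x0).IsBig (ext (tau n) ω) (tau n) z)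
    (w3 : ¬ ∃ j, (PT a n b x0).Up (ext (tau n) ω) (tau n) j (b + 60))
    (w4 : ¬ ∃ z, FBud (PT a n b x0) (1 / (b : ℝ) ^ 20) (ext (tau n) ω) (tau n) z)
    (i : ι) (hiT : i ∉ TT a n b x0 ω) :
    1 - 1 / (n : ℝ) ^ 2 ≤ |((PT a n b x0).run (ext (tau n) ω) (tau n)).x i| := by
  have hn1 : 1 ≤ n := le_trans (Nat.one_le_pow _ _ (by have := h.hb; omega)) h.hn
  have hcn : ∀ i : ι, (Fintype.equivFin ι i : ℕ) < n := fun i =>
    lt_of_lt_of_le (Fintype.equivFin ι i).2 h.hcard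
  have hwin : ∀ i, (PT a n b x0).c i * (PT a n b x0).T + (PT a n b x0).T ≤ tau n := by
    intro i
    show (Fintype.equivFin ι i : ℕ) * (180000000 * n ^ 7) + 180000000 * n ^ 7
      ≤ 180000000 * n ^ 10
    calc (Fintype.equivFin ι i : ℕ) * (180000000 * n ^ 7) + 180000000 * n ^ 7
        = ((Fintype.equivFin ι i : ℕ) + 1) * (180000000 * n ^ 7) := by ring
      _ ≤ n ^ 3 * (180000000 * n ^ 7) := Nat.mul_le_mul_right _ (by
          calc (Fintype.equivFin ι i : ℕ) + 1 ≤ n := hcn i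
            _ = n ^ 1 := (pow_one n).symm
            _ ≤ n ^ 3 := Nat.pow_le_pow_right (by omega) (by norm_num))
      _ = 180000000 * n ^ 10 := by ring
  by_contra hlt
  push Not at hlt
  by_cases hiL : i ∈ L0T n x0
  · rcases undecided (PT a n b x0) n h.hok (ext (tau n) ω) (tau n) hwin i hiL hlt with
      h1 | ⟨z, -, h1⟩ | ⟨j, _, h1⟩ | h1
    · exact w1 ⟨i, h1⟩
    · exact w2 ⟨z, h1⟩
    · exact w3 ⟨j, h1⟩
    · rcases bud_split (PT a n b x0) (1 / (b : ℝ) ^ 20) (ext (tau n) ω) (tau n) i h1 with h2 | h2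
      · exact hiT ((mem_TT a n b x0 ω i).2 h2)
      · exact w4 ⟨i, h2⟩
  · have h1 : ((PT a n b x0).run (ext (tau n) ω) (tau n)).x i = x0 i :=
      run_x_of_notMem (PT a n b x0) (ext (tau n) ω) (Nat.zero_le (tau n)) i hiL
    rw [h1] at hlt
    exact hiL (Finset.mem_filter.2 ⟨Finset.mem_univ _, hlt⟩)

theorem HT_of (a : ι → κ → ℝ) (b n : ℕ) (hb : 100 ≤ b) (hn : b ^ 50 ≤ n)
    (hnb : (n : ℝ) ≤ Real.exp b) (hcard : Fintype.card ι ≤ n)
    (hrows : Fintype.card κ ≤ n ^ 2)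
    (hcol : ∀ i, ∑ j, (a i j) ^ 2 ≤ 1)
    (hop : ∀ v : κ → ℝ, ∑ i, (∑ j, v j * a i j) ^ 2 ≤ b * ∑ j, v j ^ 2)
    (x0 : ι → ℝ) (hx0 : ∀ i, |x0 i| ≤ 1) : HT a b n x0 := by
  classical
  have hb4 : 4 ≤ b := by omega
  have hentry : ∀ i j, |a i j| ≤ 1 := by
    intro i j
    have h1 : (a i j) ^ 2 ≤ 1 := by
      refine le_trans ?_ (hcol i)
      exact Finset.single_le_sum (f := fun j => (a i j) ^ 2) (fun j _ => sq_nonneg _)
        (Finset.mem_univ j)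
    exact (sq_le_one_iff_abs_le_one _).1 h1
  have hcinj : Function.Injective (fun i : ι => (Fintype.equivFin ι i : ℕ)) := by
    intro i i' h
    exact (Fintype.equivFin ι).injective (Fin.ext h)
  exact ⟨hb, hn, hnb, hcard, hcol, hop, hx0,
    mkQ_ok a _ n b hb4 hn hcard hcinj 1 one_pos le_rfl _ _ hcol
      (fun i => (Finset.card_le_univ _).trans hrows) hentry hx0
      (fun i hi => (Finset.mem_filter.1 hi).2)⟩

open Classical in
/-- STAGE 1 -/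
theorem stage1T (a : ι → κ → ℝ) (b n : ℕ) (hb : 100 ≤ b) (hn : b ^ 50 ≤ n)
    (hnb : (n : ℝ) ≤ Real.exp b) (hcard : Fintype.card ι ≤ n)
    (hrows : Fintype.card κ ≤ n ^ 2)
    (hcol : ∀ i, ∑ j, (a i j) ^ 2 ≤ 1)
    (hop : ∀ v : κ → ℝ, ∑ i, (∑ j, v j * a i j) ^ 2 ≤ b * ∑ j, v j ^ 2)
    (x0 : ι → ℝ) (hx0 : ∀ i, |x0 i| ≤ 1)
    {K : Type*} [Fintype K] (hK : (Fintype.card K : ℝ) ≤ Real.exp (4 * b))
    (ψ : K → κ → ℝ) (hψ : ∀ k, ∑ j, ψ k j ^ 2 ≤ b) (w : K → ℝ) (hw : ∀ k, 0 ≤ w k) :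
    ∃ (x : ι → ℝ) (T : Finset ι), (∀ i, |x i| ≤ 1) ∧ (∀ i, i ∉ T → 1 - 1 / (n : ℝ) ^ 2 ≤ |x i|) ∧
      (∀ j, |∑ i, a i j * (x i - x0 i)| ≤ KB b 1) ∧
      (∀ k, ∑ i ∈ T, (if |∑ j, ψ k j * a i j| < 1 / (b : ℝ) ^ 120
          then (∑ j, ψ k j * a i j) ^ 2 else 0) ≤ 1 / (b : ℝ) ^ 90) ∧
      (∀ Q : Finset ι, Q ⊆ T → (∃ i0 ∈ Q, ∀ i ∈ Q, Relation.ReflTransGen
          (fun i i' => i ∈ Q ∧ i' ∈ Q ∧ RelT a (1 / (b : ℝ) ^ 120) i i') i0 i) →
        Q.card ≤ b ^ 83) ∧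
      (∀ k, ncl (RelT a (1 / (b : ℝ) ^ 120)) (nearT a (1 / (b : ℝ) ^ 120) (ψ k)) T ≤ b) ∧
      ∑ k, w k * (Real.exp (∑ j, ψ k j * ∑ i, a i j * (x i - x0 i)) * Real.exp (4 *
          ncl (RelT a (1 / (b : ℝ) ^ 120)) (nearT a (1 / (b : ℝ) ^ 120) (ψ k)) T))
        ≤ (1 + 1 / (b : ℝ) ^ 2) * ∑ k, w k * Real.exp (1296 * ∑ j, ψ k j ^ 2) := by
  have hb4 : 4 ≤ b := by omega
  have hb1 : 1 ≤ b := by omega
  have hb' : (100 : ℝ) ≤ b := by exact_mod_cast hb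
  have hb0 : (0 : ℝ) < b := by linarith
  have hH : HT a b n x0 := HT_of a b n hb hn hnb hcard hrows hcol hop x0 hx0
  have hN0 := NT_pos (ι := ι) n
  have hAcard : ∀ k, (nearT a (1 / (b : ℝ) ^ 120) (ψ k)).card ≤ b ^ 242 := by
    intro k
    exact card_nearT a b hb1 hop (ψ k) 1 (by rw [pow_one]; exact hψ k)
  obtain ⟨Bad, hB1, hB2⟩ := Ev_or _ _ _ _ (ev_basic a b n x0 hH hrows) (Ev_or _ _ _ _
    (ev_cluster a b n x0 hH) (Ev_or _ _ _ _ (ev_mass a b n x0 hH hK ψ hψ)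
      (ev_ncl a b n x0 hH hK (fun k => nearT a (1 / (b : ℝ) ^ 120) (ψ k)) hAcard)))
  have hBadcard : (Bad.card : ℝ) ≤ NT ι n * (1 / (b : ℝ) ^ 3) := by
    refine hB2.trans ?_
    have h1 : 4 * (NT ι n * (1 / (b : ℝ) ^ 5)) + (NT ι n * (1 / (b : ℝ) ^ 5) +
        (NT ι n * (1 / (b : ℝ) ^ 5) + NT ι n * (1 / (b : ℝ) ^ 5)))
        = NT ι n * (1 / (b : ℝ) ^ 3) * (7 / (b : ℝ) ^ 2) := by
      field_simp
      ring
    rw [h1]
    have h2 : 7 / (b : ℝ) ^ 2 ≤ 1 := by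
      rw [div_le_one (by positivity)]
      nlinarith
    calc NT ι n * (1 / (b : ℝ) ^ 3) * (7 / (b : ℝ) ^ 2) ≤ NT ι n * (1 / (b : ℝ) ^ 3) * 1 :=
          mul_le_mul_of_nonneg_left h2 (by positivity)
      _ = _ := mul_one _
  obtain ⟨F, hF⟩ : ∃ F : (Fin (tau n) → ι → Bool) → ℝ, F = fun ω => ∑ k, w k *
    (if ∃ z, (PT a n b x0).IsBig (ext (tau n) ω) (tau n) z then 0
      else Real.exp (∑ j, ψ k j * ((PT a n b x0).toPar.row
          ((PT a n b x0).run (ext (tau n) ω) (tau n)).x j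
            - (PT a n b x0).toPar.row (PT a n b x0).x0 j)) *
        Real.exp (4 * ncl (RelT a (1 / (b : ℝ) ^ 120)) (nearT a (1 / (b : ℝ) ^ 120) (ψ k))
          (TT a n b x0 ω))) := ⟨_, rfl⟩
  have hF0 : ∀ ω, 0 ≤ F ω := by
    intro ω
    rw [hF]
    refine Finset.sum_nonneg fun k _ => mul_nonneg (hw k) ?_
    split_ifs
    · exact le_rfl
    · exact mul_nonneg (Real.exp_pos _).le (Real.exp_pos _).le
  have hFM : ∑ ω ∈ univ \ Bad, F ω ≤ NT ι n * ((1 + 1 / (b : ℝ) ^ 600) *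
      ∑ k, w k * Real.exp (1296 * ∑ j, ψ k j ^ 2)) := by
    refine (Finset.sum_le_sum_of_subset_of_nonneg (Finset.sdiff_subset)
      (fun ω _ _ => hF0 ω)).trans ?_
    rw [hF, Finset.sum_comm, Finset.mul_sum, Finset.mul_sum]
    refine Finset.sum_le_sum fun k _ => ?_
    rw [← Finset.mul_sum]
    calc _ ≤ w k * (NT ι n * ((1 + 1 / (b : ℝ) ^ 600) * Real.exp (1296 * ∑ j, ψ k j ^ 2))) :=
          mul_le_mul_of_nonneg_left (pot_one a b n x0 hH (ψ k) _ (hAcard k)) (hw k)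
      _ = _ := by ring
  obtain ⟨ω, hω, hFω⟩ := choose_good b hb (NT ι n) (NT_card n) hN0 Bad hBadcard F hF0 _ hFM
    (Finset.sum_nonneg fun k _ => mul_nonneg (hw k) (Real.exp_pos _).le)
  have hgood := fun hp => hω (hB1 ω hp)
  have w1 : ¬ ∃ z, (PT a n b x0).toPar.Conf (ext (tau n) ω) z := fun hh =>
    hgood (Or.inl (Or.inl hh))
  have w2 : ¬ ∃ z, (PT a n b x0).IsBig (ext (tau n) ω) (tau n) z := fun hh =>
    hgood (Or.inl (Or.inr (Or.inl hh)))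
  have w3 : ¬ ∃ j, (PT a n b x0).Up (ext (tau n) ω) (tau n) j (b + 60) := fun hh =>
    hgood (Or.inl (Or.inr (Or.inr (Or.inl hh))))
  have w4 : ¬ ∃ z, FBud (PT a n b x0) (1 / (b : ℝ) ^ 20) (ext (tau n) ω) (tau n) z := fun hh =>
    hgood (Or.inl (Or.inr (Or.inr (Or.inr hh))))
  have hrow : ∀ j, (PT a n b x0).toPar.row ((PT a n b x0).run (ext (tau n) ω) (tau n)).x j
      - (PT a n b x0).toPar.row (PT a n b x0).x0 j
      = ∑ i, a i j * (((PT a n b x0).run (ext (tau n) ω) (tau n)).x i - x0 i) := by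
    intro j
    show ∑ i, a i j * ((PT a n b x0).run (ext (tau n) ω) (tau n)).x i - ∑ i, a i j * x0 i = _
    rw [← Finset.sum_sub_distrib]
    refine Finset.sum_congr rfl fun i _ => ?_
    ring
  refine ⟨((PT a n b x0).run (ext (tau n) ω) (tau n)).x, TT a n b x0 ω,
    run_x_le (PT a n b x0) n hH.hok _ _, decided a b n x0 hH ω w1 w2 w3 w4, ?_, ?_, ?_, ?_, ?_⟩
  · intro j
    have h1 := (run_row_le (PT a n b x0) n hH.hok (ext (tau n) ω) (tau n) j).trans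
      (Bd_le a (fun i => (Fintype.equivFin ι i : ℕ)) n b hb4 hn 1 one_pos le_rfl x0 (L0T n x0))
    rw [← hrow j]
    exact h1
  · intro k
    by_contra hk
    exact hgood (Or.inr (Or.inr (Or.inl ⟨k, (not_le.1 hk).le⟩)))
  · intro Q hQ hconn
    by_contra hk
    push Not at hk
    refine hgood (Or.inr (Or.inl ⟨Q, hQ, ?_, hconn⟩))
    calc b * b ^ 82 = b ^ 83 := by rw [← pow_succ']
      _ < Q.card := hk
  · intro k
    by_contra hk
    exact hgood (Or.inr (Or.inr (Or.inr ⟨k, by omega⟩)))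
  · refine le_trans (le_of_eq ?_) hFω
    rw [hF]
    refine Finset.sum_congr rfl fun k _ => ?_
    rw [if_neg w2]
    simp only [hrow]

end Pool.Agent.LibT57
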